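import Pool.Agent.N223.BP.Sca

/-!
The number of polygons which follow a closed lattice path, uniformly in all the scales.
-/

set_option autoImplicit false

namespace Pool.Agent.N223.BP

open Finset Real
open Pool.Agent.N941.SP
open Pool.Agent.N223.PS
open Pool.Agent.H122R3.SX (W Saw c fs mem_fs pos)
open Pool.Agent.TH303.SX2 (Bd)

theorem bd_mu : ∃ K : ℝ, Bd H981.mu K := by
  obtain ⟨K, hK, h⟩ := Pool.Agent.TH508.LT.sq_upper2
  have e : ∀ n : ℕ, H981.cr' n = (c n : ℝ) := by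
    intro n
    rw [H981.cr'_eq, ← C_eq_c]
    rfl
  refine ⟨K, ⟨H981.one_le_mu, hK, fun n _ => ?_, fun n hn => ?_⟩⟩
  · rw [← e]; exact H981.mu_pow_le n
  · rw [← e]; exact h n hn

/-- number of loops -/
noncomputable def nl (n : ℕ) : ℕ := {f : ZMod (2 * n) → ℤ × ℤ | IsLoop (2 * n) f}.ncard

theorem nl_eq {n : ℕ} (hn : 1 ≤ n) : (nl n : ℝ) = 4 * n * H981.PP n := by
  unfold H981.PP nl
  have : (0 : ℝ) < n := by exact_mod_cast hn
  rw [mul_div_cancel₀ _ (by positivity)]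
  rfl

theorem nl_bounds : ∃ K : ℝ, 0 ≤ K ∧ ∀ n : ℕ, 2 ≤ n →
    H981.mu ^ (2 * n) * exp (-(K * log n ^ 2)) ≤ nl n ∧
    (nl n : ℝ) ≤ 4 * n * (H981.mu ^ (2 * n) * exp (K * log n ^ 2)) := by
  obtain ⟨K, hK, h⟩ := Pool.Agent.TH508.LT.sq_PP2
  refine ⟨K, hK, fun n hn => ?_⟩
  obtain ⟨h1, h2⟩ := h n hn
  have hnr : (2 : ℝ) ≤ n := by exact_mod_cast hn
  have hmu := H981.mu_pos
  rw [nl_eq (by omega)]
  constructor
  · refine h1.trans ?_
    have h3 : 0 ≤ H981.PP n := le_trans (by positivity) h1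
    nlinarith
  · gcongr

theorem tm_two (m E i : ℕ) : tm (fun j => if j < E then m + 2 else m) i = m * i + 2 * min i E := by
  induction i with
  | zero => simp [tm_zero]
  | succ i ih =>
    rw [tm_succ, ih]
    rcases Nat.lt_or_ge i E with h | h
    · rw [if_pos h, min_eq_left h.le, min_eq_left (by omega : i + 1 ≤ E)]
      ring
    · rw [if_neg (by omega), min_eq_right h, min_eq_right (by omega : E ≤ i + 1)]
      ring

/-- **polygons which follow a closed lattice path, at all scales** -/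
theorem blob (κ : ℝ) (hκ : 0 ≤ κ) : ∃ (K : ℝ) (Y : ℕ → ℤ), 0 ≤ K ∧
    (∀ m ≥ 424, 1 ≤ Y m ∧ Y m ≤ m ∧ ∀ D : ℕ, exp (-(κ * log m ^ 2)) * nl m ≤
      {f : ZMod (2 * m) → ℤ × ℤ | IsLoop (2 * m) f ∧ D ≤ width (2 * m) f}.ncard →
      (D : ℤ) ≤ 128 * Y m) ∧
    ∀ m ≥ 424, ∀ (L : ℕ) (P : ℕ → ℤ × ℤ), Cl L P → P 0 = 0 → ∀ n, 2 * n / L = m →
      ∃ τ : ℕ → ℕ, StrictMono τ ∧ τ 0 = 0 ∧ τ L = 2 * n ∧
        (∀ i, τ (i + 1) = τ i + m ∨ τ (i + 1) = τ i + m + 2) ∧
        exp (-(K * L * log m ^ 3)) * nl n ≤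
          ({f : ZMod (2 * n) → ℤ × ℤ | IsLoop (2 * n) f ∧
            Fol L P (Y m) τ (top (2 * n) f)}.ncard : ℝ) := by
  classical
  obtain ⟨K0, hB⟩ := bd_mu
  obtain ⟨Kb0, hKb0, hb0⟩ := exists_Kb
  obtain ⟨Kp, hKp, hnl⟩ := nl_bounds
  have hμ1 := H981.one_le_mu
  have hμ0 := H981.mu_pos
  have hlμ : 0 ≤ log H981.mu := log_nonneg hμ1
  have hK2 := Pool.Agent.TH303.SX2.K2_nonneg hB.Kn
  have hKn := hB.Kn
  obtain ⟨Kb, hKbd⟩ : ∃ Kb, Kb = Kb0 + 8 * K0 + 4 * (κ + Kp) := ⟨_, rfl⟩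
  have hKb : 0 ≤ Kb := by rw [hKbd]; positivity
  have hb : ∀ n : ℕ, 2 ≤ n → (c n : ℝ) * exp (-(Kb * log n ^ 2)) ≤ bw n := by
    intro n hn
    refine le_trans ?_ (hb0 n hn)
    apply mul_le_mul_of_nonneg_left _ (Nat.cast_nonneg _)
    apply exp_le_exp.2
    have h1 : Kb0 * log n ^ 2 ≤ Kb * log n ^ 2 := by
      apply mul_le_mul_of_nonneg_right _ (sq_nonneg _)
      rw [hKbd]
      have : 0 ≤ 8 * K0 + 4 * (κ + Kp) := by positivity
      linarith
    linarith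
  obtain ⟨C, hC⟩ : ∃ C, C = 12 * (4 * Pool.Agent.TH303.SX2.K2 K0 + 2 * K0 + Kb + 22) +
      45 * (Kb + 6) + 10 * log H981.mu := ⟨_, rfl⟩
  have hC0 : 0 ≤ C := by rw [hC]; positivity
  -- the scale
  have hex : ∀ m : ℕ, ∃ Y : ℤ, 424 ≤ m → (1 ≤ Y ∧ Y ≤ m ∧
      (∀ D : ℕ, exp (-(κ * log m ^ 2)) * nl m ≤
        {f : ZMod (2 * m) → ℤ × ℤ | IsLoop (2 * m) f ∧ D ≤ width (2 * m) f}.ncard →
        (D : ℤ) ≤ 128 * Y) ∧
      ∀ e ≤ 1, H981.mu ^ (m - 8) * exp (-(C * log m ^ 3)) ≤ dm Y (m + 2 * e)) := by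
    intro m
    by_cases hm : 424 ≤ m
    swap
    · exact ⟨0, fun h => absurd h hm⟩
    obtain ⟨n, hn⟩ : ∃ n, m = n + 8 := ⟨m - 8, by omega⟩
    obtain ⟨Y1, hY1, hJ, hd⟩ := diam2 hB hKb hb (n := n) (by omega)
    rw [← hC] at hd
    have hlen : ∀ e ≤ 1, H981.mu ^ (m - 8) * exp (-(C * log m ^ 3)) ≤
        dm (Y1 + 8) (m + 2 * e) := by
      intro e he
      have h1 := Pool.Agent.N31.PS.le_dm Y1 n 1 e hY1 he
      have e1 : n + 2 * (2 * 1 + 2) + 2 * e = m + 2 * e := by omega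
      have e2 : Y1 + 2 * ((2 * 1 + 2 : ℕ) : ℤ) = Y1 + 8 := by push_cast; ring
      rw [e1, e2] at h1
      have h2 : (dm Y1 n : ℝ) ≤ dm (Y1 + 8) (m + 2 * e) := by exact_mod_cast h1
      refine le_trans ?_ (hd.trans h2)
      have e3 : m - 8 = n := by omega
      rw [e3]
      have h3 : log (n : ℝ) ≤ log m := by
        apply log_le_log
        · exact_mod_cast (by omega : 0 < n)
        · exact_mod_cast (by omega : n ≤ m)
      have h4 : 0 ≤ log (n : ℝ) := log_natCast_nonneg n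
      gcongr
    refine ⟨Y1 + 8, fun _ => ⟨by omega, ?_, ?_, hlen⟩⟩
    · have h1 := hlen 0 (by omega)
      have h2 : (0 : ℝ) < dm (Y1 + 8) (m + 2 * 0) := lt_of_lt_of_le (by positivity) h1
      have h3 : 0 < dm (Y1 + 8) (m + 2 * 0) := by exact_mod_cast h2
      obtain ⟨w, hw⟩ := card_pos.1 h3
      rw [mem_fs] at hw
      have h4 := Pool.Agent.H122R3.SX.pos_le_length w
      rw [hw.1.top, hw.2] at h4
      simpa using h4
    · intro D hD
      have h1 : (D : ℤ) ≤ 128 * Y1 := by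
        refine scale hB (κ := κ + Kp) (by positivity) (by rw [hKbd]; linarith) hn (by omega) ?_
          hY1 hJ
        have h2 := loops_wide (n := 2 * m) (D := D) (by omega)
        have h3 : (({f : ZMod (2 * m) → ℤ × ℤ | IsLoop (2 * m) f ∧
            D ≤ width (2 * m) f}.ncard : ℕ) : ℝ) ≤ wide (2 * m - 1) D := by exact_mod_cast h2
        refine le_trans ?_ (hD.trans h3)
        have h4 := (hnl m (by omega)).1
        have h5 : H981.mu ^ (2 * m - 1) ≤ H981.mu ^ (2 * m) :=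
          pow_le_pow_right₀ hμ1 (by omega)
        calc exp (-((κ + Kp) * log m ^ 2)) * H981.mu ^ (2 * m - 1)
            = exp (-(κ * log m ^ 2)) * (H981.mu ^ (2 * m - 1) * exp (-(Kp * log m ^ 2))) := by
              rw [show -((κ + Kp) * log (m : ℝ) ^ 2) = -(κ * log m ^ 2) + -(Kp * log m ^ 2) by ring,
                exp_add]
              ring
          _ ≤ exp (-(κ * log m ^ 2)) * (H981.mu ^ (2 * m) * exp (-(Kp * log m ^ 2))) := by gcongr
          _ ≤ _ := by gcongr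
      omega
  choose Y hY using hex
  refine ⟨C + 4 + 6 * Kp + 9 * log H981.mu, Y, by positivity, fun m hm => ?_, ?_⟩
  · obtain ⟨h1, h2, h3, -⟩ := hY m hm
    exact ⟨h1, h2, h3⟩
  intro m hm L P hP hP0 n hn
  obtain ⟨hY1, -, -, hd⟩ := hY m hm
  have h4 := hP.four
  obtain ⟨L2, hL2⟩ := hP.even
  have hdm := Nat.div_add_mod (2 * n) L
  have hmod := Nat.mod_lt (2 * n) (by omega : 0 < L)
  obtain ⟨r, hr⟩ : ∃ r, r = 2 * n % L := ⟨_, rfl⟩
  rw [hn, ← hr] at hdm
  rw [← hr] at hmod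
  obtain ⟨E, hE⟩ : ∃ E, r = 2 * E := by
    have : Even r := by
      have h1 : Even (L * m + r) := by rw [hdm]; exact even_two_mul n
      have h2 : Even (L * m) := by rw [hL2]; exact (Even.add_self L2).mul_right m
      exact (Nat.even_add.1 h1).1 h2
    obtain ⟨E, hE⟩ := this
    exact ⟨E, by omega⟩
  obtain ⟨b, hbd⟩ : ∃ b : ℕ → ℕ, b = fun j => if j < E then m + 2 else m := ⟨_, rfl⟩
  have htm : ∀ i, tm b i = m * i + 2 * min i E := by rw [hbd]; exact tm_two m E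
  have hb1 : ∀ i, 1 ≤ b i := by
    intro i
    rw [hbd]
    simp only
    split_ifs <;> omega
  have hτL : tm b L = 2 * n := by
    rw [htm, min_eq_right (by omega : E ≤ L), ← hdm, hE]
    ring
  refine ⟨tm b, tm_mono hb1, tm_zero _, hτL, ?_, ?_⟩
  · intro i
    rw [tm_succ, hbd]
    simp only
    split_ifs <;> omega
  have hcount := prod_le hY1 hP hP0 hb1
  rw [hτL] at hcount
  obtain ⟨l, hl⟩ : ∃ l, l = log (m : ℝ) := ⟨_, rfl⟩
  have hlow : (H981.mu ^ (m - 8) * exp (-(C * l ^ 3))) ^ L ≤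
      ({f : ZMod (2 * n) → ℤ × ℤ | IsLoop (2 * n) f ∧
        Fol L P (Y m) (tm b) (top (2 * n) f)}.ncard : ℝ) := by
    have h1 : ((∏ i ∈ range L, dm (Y m) (b i) : ℕ) : ℝ) ≤
        ({f : ZMod (2 * n) → ℤ × ℤ | IsLoop (2 * n) f ∧
        Fol L P (Y m) (tm b) (top (2 * n) f)}.ncard : ℝ) := by exact_mod_cast hcount
    refine le_trans ?_ h1
    rw [Nat.cast_prod]
    calc (H981.mu ^ (m - 8) * exp (-(C * l ^ 3))) ^ L
        = ∏ i ∈ range L, (H981.mu ^ (m - 8) * exp (-(C * l ^ 3))) := by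
          rw [prod_const, card_range]
      _ ≤ _ := by
          apply prod_le_prod
          · intro i _
            positivity
          · intro i _
            rw [hl, hbd]
            simp only
            split_ifs
            · exact hd 1 le_rfl
            · exact hd 0 (by omega)
  refine le_trans ?_ hlow
  -- numerics
  have hmr : (424 : ℝ) ≤ m := by exact_mod_cast hm
  have hLr : (4 : ℝ) ≤ L := by exact_mod_cast h4
  have hl1 : 1 ≤ l := by
    rw [hl, ← log_exp 1]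
    apply log_le_log (exp_pos _)
    have := exp_one_lt_d9
    linarith
  have hnLm : n ≤ L * m := by nlinarith
  have hn212 : 212 ≤ n := by nlinarith
  have hn0 : (0 : ℝ) < n := by exact_mod_cast (by omega : 0 < n)
  have hlogL : log (L : ℝ) ≤ L := (log_le_sub_one_of_pos (by linarith)).trans (by linarith)
  have hlogn : log (n : ℝ) ≤ log L + l := by
    rw [hl, ← log_mul (by linarith) (by linarith)]
    apply log_le_log hn0
    exact_mod_cast hnLm
  have hlogn0 : 0 ≤ log (n : ℝ) := log_natCast_nonneg n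
  have hlogL0 : 0 ≤ log (L : ℝ) := log_natCast_nonneg L
  have hl2 : 1 ≤ l ^ 2 := one_le_pow₀ hl1
  have hl3 : 1 ≤ l ^ 3 := one_le_pow₀ hl1
  have hl23 : l ^ 2 ≤ l ^ 3 := pow_le_pow_right₀ hl1 (by norm_num)
  have hl13 : l ≤ l ^ 3 := by
    calc l = l ^ 1 := (pow_one l).symm
      _ ≤ l ^ 3 := pow_le_pow_right₀ hl1 (by norm_num)
  have hq : log (n : ℝ) ^ 2 ≤ 6 * (L * l ^ 3) := by
    have h1 : log (n : ℝ) ^ 2 ≤ (log L + l) ^ 2 := pow_le_pow_left₀ hlogn0 hlogn 2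
    have h2 := Pool.Agent.TH303.SX2.log2_le (y := (L : ℝ)) (by linarith)
    have h3 : (log L + l) ^ 2 ≤ 2 * log L ^ 2 + 2 * l ^ 2 := by nlinarith [sq_nonneg (log L - l)]
    have h5 : (L : ℝ) ≤ L * l ^ 3 := by nlinarith
    have h6 : l ^ 2 ≤ L * l ^ 3 := by nlinarith
    linarith
  have h4n : (4 : ℝ) * n ≤ exp (4 * (L * l ^ 3)) := by
    have h1 : log (4 * (n : ℝ)) ≤ 4 * (L * l ^ 3) := by
      rw [log_mul (by norm_num) hn0.ne']
      have h2 : log (4 : ℝ) ≤ 2 := by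
        have : log (4 : ℝ) = 2 * log 2 := by
          rw [show (4 : ℝ) = 2 ^ 2 by norm_num, log_pow]; norm_num
        rw [this]
        have := log_two_lt_d9
        linarith
      have h5 : (L : ℝ) ≤ L * l ^ 3 := by nlinarith
      have h6 : l ≤ L * l ^ 3 := by nlinarith
      linarith
    rw [← log_le_log_iff (by positivity) (exp_pos _), log_exp]
    exact h1
  have hup := (hnl n (by omega)).2
  have hpow : H981.mu ^ (2 * n) ≤ H981.mu ^ ((m - 8) * L) * exp (9 * (L * l ^ 3) * log H981.mu) := by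
    have e0 : 2 * n ≤ (m - 8) * L + 9 * L := by
      obtain ⟨m', hm'⟩ : ∃ m', m = m' + 8 := ⟨m - 8, by omega⟩
      have h1 : m - 8 = m' := by omega
      have h2 : L * m = L * m' + 8 * L := by rw [hm']; ring
      have h3 : m' * L = L * m' := Nat.mul_comm _ _
      rw [h1, h3]
      omega
    have e1 : exp (9 * (L : ℝ) * log H981.mu) = H981.mu ^ (9 * L) := by
      have : (9 * (L : ℝ)) = ((9 * L : ℕ) : ℝ) := by push_cast; ring
      rw [this, exp_nat_mul, exp_log hμ0]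
    calc H981.mu ^ (2 * n) ≤ H981.mu ^ ((m - 8) * L + 9 * L) := pow_le_pow_right₀ hμ1 e0
      _ = H981.mu ^ ((m - 8) * L) * exp (9 * (L : ℝ) * log H981.mu) := by rw [e1, pow_add]
      _ ≤ _ := by
        have h5 : (L : ℝ) ≤ L * l ^ 3 := by nlinarith
        gcongr
  have hE2 : exp (Kp * log n ^ 2) ≤ exp (6 * Kp * (L * l ^ 3)) := by
    apply exp_le_exp.2
    have := mul_le_mul_of_nonneg_left hq hKp
    linarith
  calc exp (-((C + 4 + 6 * Kp + 9 * log H981.mu) * L * log m ^ 3)) * nl n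
      ≤ exp (-((C + 4 + 6 * Kp + 9 * log H981.mu) * L * log m ^ 3)) *
        (exp (4 * (L * l ^ 3)) * ((H981.mu ^ ((m - 8) * L) *
          exp (9 * (L * l ^ 3) * log H981.mu)) * exp (6 * Kp * (L * l ^ 3)))) := by
        refine mul_le_mul_of_nonneg_left (hup.trans ?_) (exp_pos _).le
        gcongr
    _ = H981.mu ^ ((m - 8) * L) * exp (-((C + 4 + 6 * Kp + 9 * log H981.mu) * L * l ^ 3) +
          4 * (L * l ^ 3) + 9 * (L * l ^ 3) * log H981.mu + 6 * Kp * (L * l ^ 3)) := by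
        rw [exp_add, exp_add, exp_add, hl]
        ring
    _ = H981.mu ^ ((m - 8) * L) * exp (-(C * l ^ 3)) ^ L := by
        rw [← exp_nat_mul]
        congr 2
        ring
    _ = _ := by rw [mul_pow, ← pow_mul]

end Pool.Agent.N223.BP
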