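import Pool.Agent.N223.PS.Geo

/-!
Extents and areas of the polygons which follow a polygon.
-/

set_option autoImplicit false

namespace Pool.Agent.N223.BP

open Pool.Agent.N941.SP
open Pool.Agent.N223.PS

/-- the extent of a function -/
noncomputable def ex {n : ℕ} (F : ZMod n → ℤ) : ℕ := sSup {w : ℕ | ∃ i j, w = (F i - F j).natAbs}

theorem ex_finite {n : ℕ} (hn : 0 < n) (F : ZMod n → ℤ) :
    {w : ℕ | ∃ i j, w = (F i - F j).natAbs}.Finite := by
  have : NeZero n := ⟨by omega⟩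
  have e : {w : ℕ | ∃ i j, w = (F i - F j).natAbs} =
      Set.range (fun p : ZMod n × ZMod n => (F p.1 - F p.2).natAbs) := by
    ext w
    constructor
    · rintro ⟨i, j, h⟩
      exact ⟨(i, j), h.symm⟩
    · rintro ⟨p, h⟩
      exact ⟨p.1, p.2, h.symm⟩
  rw [e]
  exact Set.finite_range _

theorem le_ex {n : ℕ} (hn : 0 < n) (F : ZMod n → ℤ) (i j : ZMod n) : F i - F j ≤ ex F := by
  have h : (F i - F j).natAbs ≤ ex F := le_csSup (ex_finite hn F).bddAbove ⟨i, j, rfl⟩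
  omega

theorem ex_att {n : ℕ} (hn : 0 < n) (F : ZMod n → ℤ) : ∃ i j, (ex F : ℤ) = F i - F j := by
  obtain ⟨i, j, h⟩ := Nat.sSup_mem (s := {w : ℕ | ∃ i j, w = (F i - F j).natAbs}) ⟨_, 0, 0, rfl⟩
    (ex_finite hn F).bddAbove
  have h1 : ex F = (F i - F j).natAbs := h
  rcases le_total 0 (F i - F j) with h2 | h2
  · exact ⟨i, j, by omega⟩
  · exact ⟨j, i, by omega⟩

theorem ex_follow {L n : ℕ} (hL : 0 < L) (hn : 0 < n) {Y : ℕ} {F : ZMod n → ℤ} {G : ZMod L → ℤ}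
    (h1 : ∀ k, ∃ i, |F k - Y * G i| ≤ Y) (h2 : ∀ i, ∃ k, F k = Y * G i) :
    Y * ex G ≤ ex F ∧ ex F ≤ Y * (ex G + 2) := by
  apply ext_bounds
  · intro k k'
    obtain ⟨i, hi⟩ := h1 k
    obtain ⟨i', hi'⟩ := h1 k'
    have h3 := le_ex hL G i i'
    have h4 : (Y : ℤ) * (G i - G i') ≤ Y * ex G := by gcongr
    rw [abs_le] at hi hi'
    push_cast
    have e : (Y : ℤ) * (G i - G i') = Y * G i - Y * G i' := by ring
    have e2 : (Y : ℤ) * (ex G + 2) = Y * ex G + 2 * Y := by ring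
    rw [e2]
    rw [e] at h4
    omega
  · obtain ⟨i, i', h⟩ := ex_att hL G
    obtain ⟨k, hk⟩ := h2 i
    obtain ⟨k', hk'⟩ := h2 i'
    refine ⟨k, k', ?_⟩
    rw [hk, hk']
    push_cast
    rw [h]
    apply le_of_eq
    ring

variable {L n : ℕ} {P : ZMod L → ℤ × ℤ} {Y : ℕ} {τ : ℕ → ℕ} {f : ZMod n → ℤ × ℤ}

theorem fol_size (hP : IsLoop L P) (hL4 : 4 ≤ L) (h : Fol L (top L P) Y τ (top n f))
    (hτ : StrictMono τ) (h0 : τ 0 = 0) (hL : τ L = n) (hn : 0 < n) (hY : 1 ≤ Y) :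
    (Y * width L P ≤ width n f ∧ width n f ≤ Y * (width L P + 2)) ∧
    (Y * height L P ≤ height n f ∧ height n f ≤ Y * (height L P + 2)) ∧
    |(area n f : ℤ) - (Y : ℤ) ^ 2 * area L P| ≤ 4 * (Y : ℤ) ^ 2 * L := by
  have hnear : ∀ k : ZMod n, ∃ i : ZMod L, |(f k).1 - Y * (P i).1| ≤ Y ∧
      |(f k).2 - Y * (P i).2| ≤ Y := by
    intro k
    obtain ⟨k, hk, rfl⟩ := exists_cast hn k
    obtain ⟨i, hi, -, -, h3⟩ := h.near hτ h0 (k := k) (by omega)
    refine ⟨(i : ZMod L), ?_⟩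
    have e1 : top n f k = f (k : ZMod n) := rfl
    have e2 : top L P i = P (i : ZMod L) := rfl
    rw [e1, e2] at h3
    have h4 := abs_nonneg ((f (k : ZMod n)).1 - Y * (P (i : ZMod L)).1)
    have h5 := abs_nonneg ((f (k : ZMod n)).2 - Y * (P (i : ZMod L)).2)
    constructor <;> omega
  have hver : ∀ i : ZMod L, ∃ k : ZMod n, f k = sc Y (P i) := by
    intro i
    obtain ⟨i, hi, rfl⟩ := exists_cast (by omega) i
    exact ⟨((τ i : ℕ) : ZMod n), h.ver i hi.le⟩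
  refine ⟨?_, ?_, ?_⟩
  · exact ex_follow (F := fun k => (f k).1) (G := fun i => (P i).1) (by omega) hn
      (fun k => by obtain ⟨i, hi, -⟩ := hnear k; exact ⟨i, hi⟩)
      (fun i => by
        obtain ⟨k, hk⟩ := hver i
        exact ⟨k, by rw [hk]; rfl⟩)
  · exact ex_follow (F := fun k => (f k).2) (G := fun i => (P i).2) (by omega) hn
      (fun k => by obtain ⟨i, -, hi⟩ := hnear k; exact ⟨i, hi⟩)
      (fun i => by
        obtain ⟨k, hk⟩ := hver i
        exact ⟨k, by rw [hk]; rfl⟩)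
  · have h1 := fol_area h (top_cl hL4 hP) hτ h0 hL hn (by omega)
    have e : ar L (top L P) = area L P := by
      rw [← area_tol (by omega) (top_cl hL4 hP).clo, tol_top (by omega)]
    rwa [e] at h1

end Pool.Agent.N223.BP
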