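import Pool.Agent.N223.BP.Tail
import Pool.Agent.N711.PS.LS

/-!
The ratio of the extents and the ratio of the area to the area of the bounding box.
-/

set_option autoImplicit false

namespace Pool.Agent.N223.BP

/-- the ratio of two quantities which are almost proportional to two given numbers -/
theorem ratios {r a ε : ℝ} (hr : 0 < r) (ha0 : 0 ≤ a) (ha1 : a ≤ 1) (hε : 0 < ε) :
    ∃ s₁ s₂ t₂ : ℕ, 1 < s₁ ∧ 1 ≤ t₂ ∧ t₂ < s₂ ∧
      ∀ (y w h A : ℝ), 0 < y → y * s₁ ≤ w → w ≤ y * (s₁ + 2) → y * s₂ ≤ h → h ≤ y * (s₂ + 2) →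
        |A - y ^ 2 * (s₁ * t₂ + 1 * (s₂ - t₂))| ≤ 4 * y ^ 2 * (2 * (s₁ + s₂)) →
        |w / h - r| ≤ ε ∧ |A / (w * h) - a| ≤ ε := by
  obtain ⟨N, hN⟩ : ∃ N : ℕ, N = ⌈(40 / r + 40 + 4 * r) / ε⌉₊ + ⌈2 / r⌉₊ + 3 := ⟨_, rfl⟩
  obtain ⟨s, hs⟩ : ∃ s : ℕ, s = ⌈r * N⌉₊ := ⟨_, rfl⟩
  obtain ⟨t, ht⟩ : ∃ t : ℕ, t = max 1 (min (N - 1) ⌊a * N⌋₊) := ⟨_, rfl⟩
  have hN3 : 3 ≤ N := by omega
  have hNr : (3 : ℝ) ≤ N := by exact_mod_cast hN3
  have hN1 : 40 / r + 40 + 4 * r ≤ ε * N := by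
    have h1 := Nat.le_ceil ((40 / r + 40 + 4 * r) / ε)
    have h2 : (⌈(40 / r + 40 + 4 * r) / ε⌉₊ : ℝ) ≤ N := by
      exact_mod_cast (by omega : ⌈(40 / r + 40 + 4 * r) / ε⌉₊ ≤ N)
    rw [div_le_iff₀ hε] at h1
    nlinarith
  have hN2 : 2 < r * N := by
    have h1 := Nat.le_ceil (2 / r)
    have h2 : (⌈2 / r⌉₊ : ℝ) + 3 ≤ N := by
      exact_mod_cast (by omega : ⌈2 / r⌉₊ + 3 ≤ N)
    have h3 : 2 / r < N := by linarith
    rw [div_lt_iff₀ hr] at h3
    linarith
  have hs1 : r * N ≤ s := by rw [hs]; exact Nat.le_ceil _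
  have hs2 : (s : ℝ) ≤ r * N + 1 := by rw [hs]; exact (Nat.ceil_lt_add_one (by positivity)).le
  have hs3 : (2 : ℝ) < s := lt_of_lt_of_le hN2 hs1
  have ht1 : 1 ≤ t := by rw [ht]; exact le_max_left _ _
  have ht2 : t < N := by
    rw [ht]
    rw [max_lt_iff]
    exact ⟨by omega, lt_of_le_of_lt (min_le_left _ _) (by omega)⟩
  have ht3 : (t : ℝ) ≤ a * N + 1 := by
    have h1 : t ≤ 1 + ⌊a * N⌋₊ := by
      rw [ht]
      apply max_le (by omega)
      exact (min_le_right _ _).trans (by omega)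
    have h2 : (t : ℝ) ≤ 1 + ⌊a * N⌋₊ := by exact_mod_cast h1
    have h3 := Nat.floor_le (by positivity : 0 ≤ a * N)
    linarith
  have ht4 : a * N - 1 ≤ t := by
    have h1 : min (N - 1) ⌊a * N⌋₊ ≤ t := by rw [ht]; exact le_max_right _ _
    rcases min_le_iff.1 h1 with h2 | h2
    · have h3 : (N : ℝ) - 1 ≤ t := by
        have : ((N - 1 : ℕ) : ℝ) ≤ t := by exact_mod_cast h2
        rw [Nat.cast_sub (by omega)] at this
        exact_mod_cast this
      nlinarith
    · have h3 : (⌊a * N⌋₊ : ℝ) ≤ t := by exact_mod_cast h2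
      have h4 := Nat.lt_floor_add_one (a * N)
      linarith
  refine ⟨s, N, t, by exact_mod_cast (by linarith : (1 : ℝ) < s), ht1, ht2, ?_⟩
  intro y w h A hy hw1 hw2 hh1 hh2 hA
  have hN0 : (0 : ℝ) < N := by linarith
  have hs0 : (0 : ℝ) < s := by linarith
  have ht0 : (0 : ℝ) ≤ t := Nat.cast_nonneg t
  have htN : (t : ℝ) ≤ N := by exact_mod_cast ht2.le
  have hh0 : 0 < h := lt_of_lt_of_le (by positivity) hh1
  have hw0 : 0 < w := lt_of_lt_of_le (by positivity) hw1
  have hr20 : 0 < 40 / r := by positivity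
  have hεN : 40 + 4 * r ≤ ε * N := by linarith
  constructor
  · rw [abs_le]
    constructor
    · have h1 : r - ε ≤ w / h := by
        rw [le_div_iff₀ hh0]
        rcases le_or_gt (r - ε) 0 with h2 | h2
        · nlinarith
        · calc (r - ε) * h ≤ (r - ε) * (y * (N + 2)) := by gcongr
            _ = y * ((r - ε) * (N + 2)) := by ring
            _ ≤ y * s := by
              gcongr
              nlinarith
            _ ≤ w := hw1
      linarith
    · have h1 : w / h ≤ r + ε := by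
        rw [div_le_iff₀ hh0]
        calc w ≤ y * (s + 2) := hw2
          _ ≤ y * ((r + ε) * N) := by
            gcongr
            nlinarith
          _ = (r + ε) * (y * N) := by ring
          _ ≤ (r + ε) * h := by gcongr
      linarith
  · have hwh : 0 < w * h := by positivity
    have k1 : y ^ 2 * (s * N) ≤ w * h := by
      calc y ^ 2 * (s * N) = (y * s) * (y * N) := by ring
        _ ≤ w * h := by gcongr
    have k2 : w * h ≤ y ^ 2 * ((s + 2) * (N + 2)) := by
      calc w * h ≤ (y * (s + 2)) * (y * (N + 2)) := by gcongr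
        _ = _ := by ring
    have hεs : 40 * (s + N) ≤ ε * (s * N) * 2 := by
      have h1 : 40 / r ≤ ε * N := by linarith
      have h2 : 40 * N ≤ ε * (s * N) := by
        have h3 : 40 ≤ ε * (r * N) := by
          rw [div_le_iff₀ hr] at h1
          nlinarith
        have h4 : ε * (r * N) ≤ ε * s := by gcongr
        calc 40 * (N : ℝ) ≤ (ε * s) * N := by gcongr; linarith
          _ = _ := by ring
      have h5 : 40 * (s : ℝ) ≤ ε * (s * N) := by
        calc 40 * (s : ℝ) ≤ (ε * N) * s := by gcongr; linarith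
          _ = _ := by ring
      linarith
    rw [abs_le] at hA
    obtain ⟨hA1, hA2⟩ := hA
    have hy2 : 0 < y ^ 2 := by positivity
    have z1 : 0 ≤ (s : ℝ) * N := by positivity
    rw [abs_le]
    constructor
    · have h1 : a - ε ≤ A / (w * h) := by
        rw [le_div_iff₀ hwh]
        have h3 : y ^ 2 * (s * t + 1 * (N - t)) - 4 * y ^ 2 * (2 * (s + N)) ≤ A := by linarith
        refine le_trans ?_ h3
        rcases le_or_gt (a - ε) 0 with h2 | h2
        · have h4 : (a - ε) * (w * h) ≤ (a - ε) * (y ^ 2 * (s * N)) := by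
            apply mul_le_mul_of_nonpos_left k1 h2
          refine h4.trans ?_
          have e : (a - ε) * (y ^ 2 * (s * N)) = y ^ 2 * ((a - ε) * (s * N)) := by ring
          have e2 : y ^ 2 * (s * t + 1 * (N - t)) - 4 * y ^ 2 * (2 * (s + N)) =
            y ^ 2 * (s * t + 1 * (N - t) - 8 * (s + N)) := by ring
          rw [e, e2]
          apply mul_le_mul_of_nonneg_left _ hy2.le
          have g1 : (s : ℝ) * (a * N - 1) ≤ s * t := by gcongr
          nlinarith
        · calc (a - ε) * (w * h) ≤ (a - ε) * (y ^ 2 * ((s + 2) * (N + 2))) := by gcongr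
            _ = y ^ 2 * ((a - ε) * ((s + 2) * (N + 2))) := by ring
            _ ≤ y ^ 2 * (s * t + 1 * (N - t) - 8 * (s + N)) := by
              gcongr
              have g1 : (s : ℝ) * (a * N - 1) ≤ s * t := by gcongr
              have g2 : (a - ε) * ((s + 2) * (N + 2)) =
                a * (s * N) - ε * (s * N) + (a - ε) * (2 * s + 2 * N + 4) := by ring
              have g3 : (a - ε) * (2 * s + 2 * N + 4) ≤ 1 * (2 * s + 2 * N + 4) := by
                gcongr
                linarith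
              rw [g2]
              nlinarith
            _ = _ := by ring
      linarith
    · have h1 : A / (w * h) ≤ a + ε := by
        rw [div_le_iff₀ hwh]
        have h3 : A ≤ y ^ 2 * (s * t + 1 * (N - t)) + 4 * y ^ 2 * (2 * (s + N)) := by linarith
        refine h3.trans ?_
        calc y ^ 2 * (s * t + 1 * (N - t)) + 4 * y ^ 2 * (2 * (s + N))
            = y ^ 2 * (s * t + 1 * (N - t) + 8 * (s + N)) := by ring
          _ ≤ y ^ 2 * ((a + ε) * (s * N)) := by
            gcongr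
            have g1 : (s : ℝ) * t ≤ s * (a * N + 1) := by gcongr
            nlinarith
          _ = (a + ε) * (y ^ 2 * (s * N)) := by ring
          _ ≤ _ := by gcongr
      linarith

open Pool.Agent.N223.PS in
theorem areas {r a : ℝ} (hr : 0 < r) (ha0 : 0 ≤ a) (ha1 : a ≤ 1) {ε : ℝ} (hε : 0 < ε) :
    ∃ (K : ℝ) (n₀ : ℕ), ∀ n ≥ n₀, Real.exp (-(K * Real.log n ^ 3)) ≤ prob n (fun f =>
      |(width (2 * n) f : ℝ) / height (2 * n) f - r| ≤ ε ∧
      |(area (2 * n) f : ℝ) / (width (2 * n) f * height (2 * n) f) - a| ≤ ε) := by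
  obtain ⟨s₁, s₂, t₂, hs1, ht1, ht2, hrat⟩ := ratios hr ha0 ha1 hε
  obtain ⟨P, hP, hP0, hbd, hm1, hm2, har⟩ := Pool.Agent.N711.PS.lshape s₁ s₂ 1 t₂ le_rfl hs1 ht1 ht2
  obtain ⟨K, Y, hK, hK2⟩ := blob_tail 0 le_rfl
  obtain ⟨L, hL⟩ : ∃ L, L = 2 * (s₁ + s₂) := ⟨_, rfl⟩
  rw [← hL] at hP hbd hm1 hm2 har
  refine ⟨K * L * 8, L * 424 + 2, fun n hn => ?_⟩
  have hL0 : 0 < L := by omega
  obtain ⟨m, hm⟩ : ∃ m, m = 2 * n / L := ⟨_, rfl⟩
  have hm424 : 424 ≤ m := by
    rw [hm, Nat.le_div_iff_mul_le hL0]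
    have h1 : L * 424 + 2 ≤ n := hn
    linarith
  obtain ⟨hY, -, -, -, hpic⟩ := hK2 m hm424
  obtain ⟨τ, hτ, hτ0, hτL, -, hcount⟩ := hpic L P hP hP0 n hm.symm
  refine le_trans ?_ (hcount.trans (prob_mono (by omega) ?_))
  · apply Real.exp_le_exp.2
    have hnr : (2 : ℝ) ≤ n := by exact_mod_cast (by omega : 2 ≤ n)
    have h1 : Real.log (m : ℝ) ≤ 2 * Real.log n := by
      have e : 2 * Real.log (n : ℝ) = Real.log ((n : ℝ) ^ 2) := by rw [Real.log_pow]; norm_num
      rw [e]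
      apply Real.log_le_log
      · exact_mod_cast (by omega : 0 < m)
      · have h2 : m ≤ 2 * n := by rw [hm]; exact Nat.div_le_self _ _
        have h3 : (m : ℝ) ≤ 2 * n := by exact_mod_cast h2
        nlinarith
    have h2 : 0 ≤ Real.log (m : ℝ) := Real.log_natCast_nonneg m
    have h3 : Real.log (m : ℝ) ^ 3 ≤ 8 * Real.log n ^ 3 := by
      calc Real.log (m : ℝ) ^ 3 ≤ (2 * Real.log n) ^ 3 := pow_le_pow_left₀ h2 h1 3
        _ = _ := by ring
    have h4 : 0 ≤ K * (L : ℝ) := by positivity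
    have := mul_le_mul_of_nonneg_left h3 h4
    linarith
  · intro f hloop hfol
    have hYn : (((Y m).toNat : ℕ) : ℤ) = Y m := Int.toNat_of_nonneg (by omega)
    have hYr : (((Y m).toNat : ℕ) : ℝ) = (Y m : ℝ) := by exact_mod_cast hYn
    have hY0 : (0 : ℝ) < (Y m : ℝ) := by exact_mod_cast (by omega : 0 < Y m)
    obtain ⟨⟨a1, a2⟩, a3, a4⟩ := fol_ext hfol hτ hτ0 hτL (by omega) hY hP0 hbd hm1 hm2
    have a5 := fol_area hfol hP hτ hτ0 hτL (by omega) hY
    rw [har] at a5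
    refine hrat (Y m : ℝ) _ _ _ hY0 ?_ ?_ ?_ ?_ ?_
    · rw [← hYr]; exact_mod_cast a1
    · rw [← hYr]; exact_mod_cast a2
    · rw [← hYr]; exact_mod_cast a3
    · rw [← hYr]; exact_mod_cast a4
    · have a6 : |((area (2 * n) f : ℕ) : ℝ) - (Y m : ℝ) ^ 2 * ((s₁ * t₂ + 1 * (s₂ - t₂) : ℕ) : ℝ)| ≤
          4 * (Y m : ℝ) ^ 2 * ((2 * (s₁ + s₂) : ℕ) : ℝ) := by
        rw [hL] at a5
        exact_mod_cast a5
      push_cast [Nat.cast_sub ht2.le] at a6
      exact a6

end Pool.Agent.N223.BP
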