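import Pool.Agent.N223.BP.Sel

/-!
If self-avoiding words of a given length reach a large distance, then all the smaller scales are
reached by short words.
-/

set_option autoImplicit false

namespace Pool.Agent.N223.BP

open Finset Real
open Pool.Agent.N941.SP
open Pool.Agent.H122R3.SX (W Saw UB G c ub ubx g fs mem_fs pos pos_append pm pm_inj pm_symm ub_le
  pos_le_length)
open Pool.Agent.TH303.SX2 (Bd)

theorem short {i : Fin 2} {r S : ℕ} (k : ℕ) (hk : 1 ≤ k) : ∀ v : W, v.length ≤ k * r →
    ((k * S : ℕ) : ℤ) ≤ |pos v i| → ∃ u, u <:+: v ∧ u.length ≤ r ∧ (S : ℤ) ≤ |pos u i| := by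
  induction k, hk using Nat.le_induction with
  | base =>
    intro v h1 h2
    exact ⟨v, List.infix_refl _, by omega, by simpa using h2⟩
  | succ k hk ih =>
    intro v h1 h2
    by_cases h3 : (S : ℤ) ≤ |pos (v.take r) i|
    · exact ⟨v.take r, (List.take_prefix _ _).isInfix, by
        rw [List.length_take]; exact min_le_left _ _, h3⟩
    · have h4 : pos v i = pos (v.take r) i + pos (v.drop r) i := by
        rw [← pos_append, List.take_append_drop]
      have h5 : ((k * S : ℕ) : ℤ) ≤ |pos (v.drop r) i| := by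
        have h6 := abs_add_le (pos (v.take r) i) (pos (v.drop r) i)
        rw [h4] at h2
        push_cast at h2 ⊢
        linarith
      obtain ⟨u, hu, hu1, hu2⟩ := ih (v.drop r) (by
        rw [List.length_drop]
        rw [add_mul, one_mul] at h1
        omega) h5
      exact ⟨u, hu.trans (List.drop_suffix _ _).isInfix, hu1, hu2⟩

theorem wide_short {S D t r k : ℕ} (hS : 1 ≤ S) (hk : 1 ≤ k) (hD : k * S ≤ D) (hr : t ≤ k * r) :
    wide t D ≤ ∑ m ∈ range (min r t + 1), ∑ a ∈ range (t - m + 1),
      5 * (c a * ub m S * c (t - m - a)) := by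
  classical
  choose f hf using pm_symm
  have hsub : fs (fun w => Saw w ∧ Wide D w) t ⊆
      (range (min r t + 1)).biUnion fun m => (range (t - m + 1)).biUnion fun a =>
      (univ : Finset (Fin 5)).biUnion fun k =>
        ((fs Saw a ×ˢ fs (UB S) m) ×ˢ fs Saw (t - m - a)).image
          (fun p => p.1.1 ++ (p.1.2.map (f k)) ++ p.2) := by
    intro w hw
    rw [mem_fs] at hw
    obtain ⟨⟨hws, v, i, hv, hvD⟩, hl⟩ := hw
    obtain ⟨u, hu, hu1, hu2⟩ := short (r := r) (S := S) k hk v (by have := hv.length_le; omega)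
      (le_trans (by exact_mod_cast hD) hvD)
    have huw : u <:+: w := hu.trans hv
    obtain ⟨s, s', hss⟩ := huw
    obtain ⟨u1, u2, u3, k, hw1, hw2⟩ := exists_UB' hS (hws.inf (hu.trans hv)) ⟨u, i, List.infix_refl _, hu2⟩
    have hl2 := hl
    rw [← hss, hw1] at hl
    simp only [List.length_append] at hl
    have hl3 : u2.length ≤ r := by
      rw [hw1] at hu1
      simp only [List.length_append] at hu1
      omega
    have hww : w = (s ++ u1) ++ u2 ++ (u3 ++ s') := by
      rw [← hss, hw1]
      simp only [List.append_assoc]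
    simp only [mem_biUnion, mem_range, mem_univ, true_and, mem_image, mem_product, Prod.exists]
    refine ⟨u2.length, by
      have : u2.length ≤ min r t := le_min hl3 (by omega)
      omega, (s ++ u1).length, by
      rw [List.length_append]
      omega, k, s ++ u1, u2.map (pm k), u3 ++ s', ?_, ?_⟩
    · refine ⟨⟨?_, ?_⟩, ?_⟩
      · rw [mem_fs]
        exact ⟨hws.inf (by rw [hww, List.append_assoc]; exact (List.prefix_append _ _).isInfix), rfl⟩
      · rw [mem_fs, List.length_map]
        exact ⟨hw2, rfl⟩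
      · rw [mem_fs]
        refine ⟨hws.inf (by rw [hww]; exact (List.suffix_append _ _).isInfix), ?_⟩
        rw [List.length_append, List.length_append]
        omega
    · rw [hww]
      have e : (u2.map (pm k)).map (f k) = u2 := by
        rw [List.map_map]
        convert List.map_id u2
        ext j
        simp [hf]
      rw [e]
  unfold wide
  refine (card_le_card hsub).trans ?_
  refine card_biUnion_le.trans (sum_le_sum fun m _ => ?_)
  refine card_biUnion_le.trans (sum_le_sum fun a _ => ?_)
  refine card_biUnion_le.trans ?_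
  calc ∑ k : Fin 5, (((fs Saw a ×ˢ fs (UB S) m) ×ˢ fs Saw (t - m - a)).image
          (fun p => p.1.1 ++ (p.1.2.map (f k)) ++ p.2)).card
      ≤ ∑ _k : Fin 5, (fs Saw a).card * (fs (UB S) m).card * (fs Saw (t - m - a)).card := by
        refine sum_le_sum fun i _ => card_image_le.trans ?_
        rw [card_product, card_product]
    _ = _ := by
        rw [sum_const, card_univ, Fintype.card_fin, smul_eq_mul]
        rfl

theorem reach_ubx {μ K : ℝ} (h : Bd μ K) {N t D S r k : ℕ} (htN : t ≤ N) (hS : 1 ≤ S) (hk : 1 ≤ k)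
    (hD : k * S ≤ D) (hr : t ≤ k * r) {θ θ0 : ℝ} (hθ : 0 ≤ θ) (hw : θ0 * μ ^ t ≤ wide t D)
    (hsm : 80 * ((r : ℝ) + 1) * (t + 1) * (2 * S + 1) * exp (K * log N ^ 2) ^ 2 * θ < θ0) :
    ∃ m ≤ r, ∃ x : ℤ, |x| ≤ (S : ℤ) ∧ θ * μ ^ m ≤ (ubx m x S : ℝ) := by
  by_contra hcon
  push Not at hcon
  have hμ0 : 0 < μ := by linarith [h.one]
  obtain ⟨E, hE⟩ : ∃ E, E = exp (K * log N ^ 2) := ⟨_, rfl⟩
  have hE0 : 0 < E := by rw [hE]; exact exp_pos _
  rw [← hE] at hsm
  have h1 := wide_short hS hk hD hr
  have h2 : (wide t D : ℝ) ≤ ((r : ℝ) + 1) * ((t + 1) * ((80 * (2 * S + 1) * E ^ 2 * θ) * μ ^ t)) := by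
    calc (wide t D : ℝ) ≤ ((∑ m ∈ range (min r t + 1), ∑ a ∈ range (t - m + 1),
          5 * (c a * ub m S * c (t - m - a)) : ℕ) : ℝ) := by exact_mod_cast h1
      _ = ∑ m ∈ range (min r t + 1), ∑ a ∈ range (t - m + 1),
          5 * ((c a : ℝ) * ub m S * c (t - m - a)) := by push_cast; rfl
      _ ≤ ∑ m ∈ range (min r t + 1), ∑ a ∈ range (t - m + 1),
          (80 * (2 * S + 1) * E ^ 2 * θ) * μ ^ t := by
          refine sum_le_sum fun m hm => sum_le_sum fun a ha => ?_
          rw [mem_range] at hm ha
          have hmr : m ≤ r ∧ m ≤ t := by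
            constructor
            · have := min_le_left r t; omega
            · have := min_le_right r t; omega
          have e1 := h.c_le4 (a := a) (n := N) (by omega)
          have e2 := h.c_le4 (a := t - m - a) (n := N) (by omega)
          rw [← hE] at e1 e2
          have e3 : (ub m S : ℝ) ≤ (2 * S + 1) * θ * μ ^ m := by
            calc (ub m S : ℝ) ≤ ((∑ x ∈ Icc (-(S : ℤ)) S, ubx m x S : ℕ) : ℝ) := by
                  exact_mod_cast ub_le m S
              _ = ∑ x ∈ Icc (-(S : ℤ)) S, (ubx m x S : ℝ) := by push_cast; rfl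
              _ ≤ ∑ x ∈ Icc (-(S : ℤ)) S, θ * μ ^ m := by
                  refine sum_le_sum fun x hx => ?_
                  rw [mem_Icc] at hx
                  exact (hcon m hmr.1 x (abs_le.2 hx)).le
              _ = _ := by
                  rw [sum_const, Int.card_Icc, nsmul_eq_mul]
                  have : (((S : ℤ) + 1 - -(S : ℤ)).toNat) = 2 * S + 1 := by omega
                  rw [this]
                  push_cast
                  ring
          have e4 : μ ^ a * μ ^ m * μ ^ (t - m - a) = μ ^ t := by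
            rw [← pow_add, ← pow_add]
            congr 1
            omega
          calc 5 * ((c a : ℝ) * ub m S * c (t - m - a))
              ≤ 5 * ((4 * μ ^ a * E) * ((2 * S + 1) * θ * μ ^ m) *
                (4 * μ ^ (t - m - a) * E)) := by gcongr
            _ = (80 * (2 * S + 1) * E ^ 2 * θ) * (μ ^ a * μ ^ m * μ ^ (t - m - a)) := by ring
            _ = _ := by rw [e4]
      _ ≤ ∑ m ∈ range (min r t + 1), ((t : ℝ) + 1) * ((80 * (2 * S + 1) * E ^ 2 * θ) * μ ^ t) := by
          refine sum_le_sum fun m _ => ?_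
          rw [sum_const, card_range, nsmul_eq_mul]
          apply mul_le_mul_of_nonneg_right _ (by positivity)
          exact_mod_cast (by omega : t - m + 1 ≤ t + 1)
      _ = ((min r t + 1 : ℕ) : ℝ) * (((t : ℝ) + 1) * ((80 * (2 * S + 1) * E ^ 2 * θ) * μ ^ t)) := by
          rw [sum_const, card_range, nsmul_eq_mul]
      _ ≤ _ := by
          apply mul_le_mul_of_nonneg_right _ (by positivity)
          have : min r t + 1 ≤ r + 1 := by
            have := min_le_left r t
            omega
          exact_mod_cast this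
  have h3 : 0 < μ ^ t := pow_pos hμ0 _
  have h4 := mul_lt_mul_of_pos_right hsm h3
  have h5 : θ0 * μ ^ t < θ0 * μ ^ t := by
    calc θ0 * μ ^ t ≤ wide t D := hw
      _ ≤ _ := h2
      _ = 80 * ((r : ℝ) + 1) * (t + 1) * (2 * S + 1) * E ^ 2 * θ * μ ^ t := by ring
      _ < _ := h4
  exact lt_irrefl _ h5

end Pool.Agent.N223.BP
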