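import Pool.Agent.N223.BP.Rea
import Pool.Agent.N223.PS.Geo

/-!
The scale of the diamond words is at least a constant times every extent which is reached by the
self-avoiding polygons with probability at least `exp (- κ (log n)^2)`.
-/

set_option autoImplicit false

namespace Pool.Agent.N223.BP

open Finset Real
open Pool.Agent.N941.SP
open Pool.Agent.N223.PS
open Pool.Agent.H122R3.SX (W Saw UB G c ub ubx g fs mem_fs pos pos_append pm pm_inj pm_symm ub_le
  pos_le_length fw walks walks_eq pos_nil pos_cons st_abs X)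
open Pool.Agent.TH303.SX2 (Bd)

theorem abs_pos_le (w : W) (i : Fin 2) : |pos w i| ≤ w.length := by
  induction w with
  | nil => simp
  | cons l w ih =>
    rw [pos_cons, List.length_cons]
    have h1 := st_abs l i
    have h2 := abs_add_le (Pool.Agent.H122R3.SX.st l i) (pos w i)
    push_cast
    omega

theorem exists_ext {n : ℕ} (hn : 0 < n) (f : ZMod n → ℤ × ℤ) :
    ∃ i j, width n f = ((f i).1 - (f j).1).natAbs := by
  have : NeZero n := ⟨by omega⟩
  have hfin : {w : ℕ | ∃ i j, w = ((f i).1 - (f j).1).natAbs}.Finite := by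
    have e : {w : ℕ | ∃ i j, w = ((f i).1 - (f j).1).natAbs} =
        Set.range (fun p : ZMod n × ZMod n => ((f p.1).1 - (f p.2).1).natAbs) := by
      ext w
      constructor
      · rintro ⟨i, j, h⟩
        exact ⟨(i, j), h.symm⟩
      · rintro ⟨p, h⟩
        exact ⟨p.1, p.2, h.symm⟩
    rw [e]
    exact Set.finite_range _
  exact Nat.sSup_mem (s := {w : ℕ | ∃ i j, w = ((f i).1 - (f j).1).natAbs}) ⟨_, 0, 0, rfl⟩
    hfin.bddAbove

theorem wide_of {w : W} {D : ℕ} {a b : ℕ} (h : (D : ℤ) ≤ |X (w.take b) - X (w.take a)|) : Wide D w := by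
  have key : ∀ a b : ℕ, a ≤ b → (D : ℤ) ≤ |X (w.take b) - X (w.take a)| → Wide D w := by
    intro a b hab h
    refine ⟨(w.take b).drop a, 1, (List.drop_suffix _ _).isInfix.trans (List.take_prefix _ _).isInfix,
      ?_⟩
    have h1 : (w.take b).take a ++ (w.take b).drop a = w.take b := List.take_append_drop _ _
    rw [List.take_take, min_eq_left hab] at h1
    have h2 := congrArg X h1
    rw [Pool.Agent.H122R3.SX.X_append] at h2
    have h3 : pos ((w.take b).drop a) 1 = X (w.take b) - X (w.take a) := by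
      have : X ((w.take b).drop a) = pos ((w.take b).drop a) 1 := rfl
      rw [← this]
      omega
    rw [h3]
    exact h
  rcases le_total a b with hab | hab
  · exact key a b hab h
  · exact key b a hab (by rw [abs_sub_comm]; exact h)

theorem loops_wide {n D : ℕ} (hn : 1 ≤ n) :
    {f : ZMod n → ℤ × ℤ | IsLoop n f ∧ D ≤ width n f}.ncard ≤ wide (n - 1) D := by
  classical
  have hinj : Set.InjOn (fun (f : ZMod n → ℤ × ℤ) (k : Fin (n - 1 + 1)) => f ((k : ℕ) : ZMod n))
      {f : ZMod n → ℤ × ℤ | IsLoop n f ∧ D ≤ width n f} := by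
    intro f _ f' _ h
    funext k
    obtain ⟨j, hj, rfl⟩ := exists_cast (by omega) k
    have := congrFun h ⟨j, by omega⟩
    exact this
  have hmaps : ∀ f ∈ {f : ZMod n → ℤ × ℤ | IsLoop n f ∧ D ≤ width n f},
      (fun (f : ZMod n → ℤ × ℤ) (k : Fin (n - 1 + 1)) => f ((k : ℕ) : ZMod n)) f ∈
        fw (n - 1) '' (fs (fun w => Saw w ∧ Wide D w) (n - 1) : Set W) := by
    rintro f ⟨⟨h0, h1, h2⟩, hD⟩
    have hmem : (fun (k : Fin (n - 1 + 1)) => f ((k : ℕ) : ZMod n)) ∈ walks (n - 1) := by
      refine ⟨?_, ?_, ?_⟩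
      · simp only [Fin.val_zero, Nat.cast_zero]
        exact h0
      · intro i j hij
        have h3 := h1 hij
        rw [ZMod.natCast_eq_natCast_iff'] at h3
        rw [Nat.mod_eq_of_lt (by omega), Nat.mod_eq_of_lt (by omega)] at h3
        exact Fin.ext h3
      · intro i
        have h3 := h2 ((i : ℕ) : ZMod n)
        unfold Pool.Agent.H122R3.SX.Adj
        simp only [Fin.val_castSucc, Fin.val_succ, Nat.cast_add, Nat.cast_one]
        rw [abs_sub_comm, abs_sub_comm (f ((i : ℕ) : ZMod n)).2]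
        exact h3
    rw [walks_eq] at hmem
    obtain ⟨w, hw, hwf⟩ := hmem
    rw [mem_coe, mem_fs] at hw
    refine ⟨w, ?_, hwf⟩
    rw [mem_coe, mem_fs]
    refine ⟨⟨hw.1, ?_⟩, hw.2⟩
    obtain ⟨i, j, hij⟩ := exists_ext (by omega) f
    obtain ⟨a, ha, rfl⟩ := exists_cast (by omega) i
    obtain ⟨b, hb, rfl⟩ := exists_cast (by omega) j
    have ea : X (w.take a) = (f (a : ZMod n)).1 := by
      have := congrFun hwf ⟨a, by omega⟩
      have := congrArg Prod.fst this
      exact this
    have eb : X (w.take b) = (f (b : ZMod n)).1 := by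
      have := congrFun hwf ⟨b, by omega⟩
      have := congrArg Prod.fst this
      exact this
    apply wide_of (a := b) (b := a)
    rw [ea, eb, ← Int.natCast_natAbs, ← hij]
    exact_mod_cast hD
  refine (Set.ncard_le_ncard_of_injOn _ hmaps hinj ((Finset.finite_toSet _).image _)).trans ?_
  refine (Set.ncard_image_le (Finset.finite_toSet _)).trans ?_
  rw [Set.ncard_coe_finset]
  rfl

theorem sum_pl (t J : ℕ) : ∑ i ∈ range J, (t / (128 * 2 ^ (J - 1 - i)) + 1) ≤ J + 2 * (t / 128) := by
  rw [sum_add_distrib, sum_const, card_range, smul_eq_mul, mul_one]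
  have h1 : ∑ i ∈ range J, t / (128 * 2 ^ (J - 1 - i)) = ∑ i ∈ range J, t / 128 / 2 ^ i := by
    rw [← sum_range_reflect (fun i => t / 128 / 2 ^ i) J]
    refine sum_congr rfl fun i _ => ?_
    rw [Nat.div_div_eq_div_mul]
  have h2 := Nat.geom_sum_le (b := 2) le_rfl (t / 128) J
  rw [h1]
  have h3 : t / 128 * 2 / (2 - 1) = 2 * (t / 128) := by
    rw [show 2 - 1 = 1 by norm_num, Nat.div_one, mul_comm]
  omega

theorem scale {μ K Kb κ : ℝ} (h : Bd μ K) (hκ : 0 ≤ κ) (hKb : 8 * K + 4 * κ ≤ Kb)
    {m n D : ℕ} (hm : m = n + 8) (hn : 416 ≤ n)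
    (hw : exp (-(κ * log m ^ 2)) * μ ^ (2 * m - 1) ≤ wide (2 * m - 1) D) {Y : ℤ} (hY : 1 ≤ Y)
    (hJ : ∀ J : ℕ, 4 * (4 + 4 * ∑ i ∈ range J, pl μ (thr K Kb (log n)) i) ≤ n → (2 : ℤ) ^ J ≤ Y) :
    (D : ℤ) ≤ 128 * Y := by
  have hμ0 : 0 < μ := by linarith [h.one]
  rcases Nat.lt_or_ge D 128 with hD | hD
  · omega
  -- the distance is less than the length
  have hDt : D ≤ 2 * m - 1 := by
    have h0 : (0 : ℝ) < (wide (2 * m - 1) D : ℝ) := lt_of_lt_of_le (by positivity) hw
    have h1 : 0 < wide (2 * m - 1) D := by exact_mod_cast h0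
    obtain ⟨w, hw⟩ := card_pos.1 h1
    rw [mem_fs] at hw
    obtain ⟨⟨-, v, i, hv, hvD⟩, hl⟩ := hw
    have h2 := abs_pos_le v i
    have h3 := hv.length_le
    omega
  obtain ⟨J, hJd⟩ : ∃ J, J = Nat.log 2 (D / 128) + 1 := ⟨_, rfl⟩
  have hJ1 : 1 ≤ J := by omega
  have hpow : 2 ^ (J - 1) ≤ D / 128 := by
    rw [hJd, Nat.add_sub_cancel]
    exact Nat.pow_log_le_self 2 (by omega)
  have hpow2 : D / 128 < 2 ^ J := by
    rw [hJd]
    exact Nat.lt_pow_succ_log_self (by norm_num) _
  have hJY : (2 : ℤ) ^ J ≤ Y := by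
    apply hJ
    have hl0 : 0 ≤ log (n : ℝ) := log_natCast_nonneg n
    have hpl : ∀ i ∈ range J, pl μ (thr K Kb (log n)) i ≤
        (2 * m - 1) / (128 * 2 ^ (J - 1 - i)) + 1 := by
      intro i hi
      rw [mem_range] at hi
      obtain ⟨k, hk⟩ : ∃ k, k = 128 * 2 ^ (J - 1 - i) := ⟨_, rfl⟩
      have hk1 : 1 ≤ k := by rw [hk]; have := Nat.one_le_two_pow (n := J - 1 - i); omega
      have hkS : k * 2 ^ i ≤ D := by
        rw [hk, mul_assoc, ← pow_add]
        have e : J - 1 - i + i = J - 1 := by omega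
        rw [e]
        calc 128 * 2 ^ (J - 1) ≤ 128 * (D / 128) := Nat.mul_le_mul_left _ hpow
          _ ≤ D := Nat.mul_div_le D 128
      obtain ⟨r, hr⟩ : ∃ r, r = (2 * m - 1) / k + 1 := ⟨_, rfl⟩
      have hrk : 2 * m - 1 ≤ k * r := by
        rw [hr]
        exact (Nat.lt_mul_div_succ _ (by omega)).le
      rw [← hk, ← hr]
      have hSD : 2 ^ i ≤ D := le_trans (Nat.le_mul_of_pos_left _ (by omega)) hkS
      obtain ⟨m', hm', x, hx, hx2⟩ := reach_ubx h (N := 2 * m) (t := 2 * m - 1) (D := D)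
        (S := 2 ^ i) (r := r) (k := k) (θ := thr K Kb (log n)) (θ0 := exp (-(κ * log m ^ 2)))
        (by omega) Nat.one_le_two_pow hk1 hkS hrk (exp_pos _).le hw (by
          -- numerics
          obtain ⟨l, hl⟩ : ∃ l, l = log (n : ℝ) := ⟨_, rfl⟩
          have hnr : (416 : ℝ) ≤ n := by exact_mod_cast hn
          have hn0 : (0 : ℝ) < n := by linarith
          have hl1 : 1 ≤ l := by
            rw [hl, ← log_exp 1]
            apply log_le_log (exp_pos _)
            have := exp_one_lt_d9
            linarith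
          have hmn : ((2 * m : ℕ) : ℝ) ≤ (n : ℝ) ^ 2 := by
            rw [hm]; push_cast; nlinarith
          have hlN : log ((2 * m : ℕ) : ℝ) ≤ 2 * l := by
            rw [hl]
            calc log ((2 * m : ℕ) : ℝ) ≤ log ((n : ℝ) ^ 2) := by
                  apply log_le_log _ hmn
                  exact_mod_cast (by omega : 0 < 2 * m)
              _ = 2 * log n := by rw [log_pow]; norm_num
          have hlm : log (m : ℝ) ≤ 2 * l := by
            refine le_trans ?_ hlN
            apply log_le_log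
            · exact_mod_cast (by omega : 0 < m)
            · exact_mod_cast (by omega : m ≤ 2 * m)
          have hlN2 : log ((2 * m : ℕ) : ℝ) ^ 2 ≤ 4 * l ^ 2 := by
            calc _ ≤ (2 * l) ^ 2 := pow_le_pow_left₀ (log_natCast_nonneg _) hlN 2
              _ = _ := by ring
          have hlm2 : log (m : ℝ) ^ 2 ≤ 4 * l ^ 2 := by
            calc _ ≤ (2 * l) ^ 2 := pow_le_pow_left₀ (log_natCast_nonneg _) hlm 2
              _ = _ := by ring
          have a1 : (r : ℝ) + 1 ≤ (n : ℝ) ^ 2 := by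
            have h1 : r + 1 ≤ 2 * m + 1 := by
              rw [hr]
              have := Nat.div_le_self (2 * m - 1) k
              omega
            have h2 : (r : ℝ) + 1 ≤ 2 * m + 1 := by exact_mod_cast h1
            rw [hm] at h2
            push_cast at h2
            nlinarith
          have a2 : ((2 * m - 1 : ℕ) : ℝ) + 1 ≤ (n : ℝ) ^ 2 := by
            have h1 : 2 * m - 1 + 1 ≤ 2 * m := by omega
            have h2 : ((2 * m - 1 : ℕ) : ℝ) + 1 ≤ ((2 * m : ℕ) : ℝ) := by exact_mod_cast h1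
            linarith
          have a3 : 2 * ((2 ^ i : ℕ) : ℝ) + 1 ≤ (n : ℝ) ^ 2 := by
            have h1 : 2 * 2 ^ i + 1 ≤ 4 * m := by omega
            have h2 : 2 * ((2 ^ i : ℕ) : ℝ) + 1 ≤ 4 * m := by exact_mod_cast h1
            rw [hm] at h2
            push_cast at h2 ⊢
            nlinarith
          have b1 : 80 * ((r : ℝ) + 1) * (((2 * m - 1 : ℕ) : ℝ) + 1) *
              (2 * ((2 ^ i : ℕ) : ℝ) + 1) ≤ exp (7 * l ^ 2) := by
            calc 80 * ((r : ℝ) + 1) * (((2 * m - 1 : ℕ) : ℝ) + 1) * (2 * ((2 ^ i : ℕ) : ℝ) + 1)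
                ≤ (n : ℝ) * (n : ℝ) ^ 2 * (n : ℝ) ^ 2 * (n : ℝ) ^ 2 := by
                  gcongr
                  linarith
              _ = exp ((7 : ℕ) * l) := by
                  rw [exp_nat_mul, hl, exp_log hn0]
                  ring
              _ ≤ _ := by
                  apply exp_le_exp.2
                  push_cast
                  nlinarith
          have b2 : exp (K * log ((2 * m : ℕ) : ℝ) ^ 2) ^ 2 ≤ exp (8 * K * l ^ 2) := by
            rw [← exp_nat_mul]
            apply exp_le_exp.2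
            push_cast at hlN2 ⊢
            have := mul_le_mul_of_nonneg_left hlN2 h.Kn
            linarith
          have b3 : exp (-(4 * κ * l ^ 2)) ≤ exp (-(κ * log m ^ 2)) := by
            apply exp_le_exp.2
            have := mul_le_mul_of_nonneg_left hlm2 hκ
            linarith
          refine lt_of_lt_of_le ?_ b3
          calc 80 * ((r : ℝ) + 1) * (((2 * m - 1 : ℕ) : ℝ) + 1) * (2 * ((2 ^ i : ℕ) : ℝ) + 1) *
                exp (K * log ((2 * m : ℕ) : ℝ) ^ 2) ^ 2 * thr K Kb (log n)
              ≤ exp (7 * l ^ 2) * exp (8 * K * l ^ 2) * thr K Kb (log n) := by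
                have := (thr_pos K Kb (log n)).le
                gcongr
            _ = exp (7 * l ^ 2 + 8 * K * l ^ 2 +
                -((4 * Pool.Agent.TH303.SX2.K2 K + 2 * K + Kb + 22) * l ^ 2)) := by
                unfold thr
                rw [exp_add, exp_add, hl]
            _ < _ := by
                apply exp_lt_exp.2
                have hK2 := Pool.Agent.TH303.SX2.K2_nonneg h.Kn
                have hKn := h.Kn
                have c1 : (8 * K + 4 * κ) * l ^ 2 ≤ Kb * l ^ 2 := by gcongr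
                have c2 : 0 ≤ Pool.Agent.TH303.SX2.K2 K * l ^ 2 := by positivity
                have c3 : 0 ≤ K * l ^ 2 := by positivity
                have c4 : 0 < l ^ 2 := by positivity
                nlinarith)
      have hmem : m' ∈ good μ (thr K Kb (log n)) i := ⟨x, hx, hx2⟩
      exact (Nat.sInf_le hmem).trans hm'
    have h1 : ∑ i ∈ range J, pl μ (thr K Kb (log n)) i ≤ J + 2 * ((2 * m - 1) / 128) :=
      (sum_le_sum hpl).trans (sum_pl _ _)
    have h2 : 2 * J ≤ 2 ^ J := by
      have h3 := Nat.lt_two_pow_self (n := J - 1)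
      have h4 : 2 ^ J = 2 * 2 ^ (J - 1) := by
        rw [← pow_succ']
        congr 1
        omega
      omega
    have h3 : 2 ^ J = 2 * 2 ^ (J - 1) := by
      rw [← pow_succ']
      congr 1
      omega
    omega
  have h5 : ((D / 128 : ℕ) : ℤ) < 2 ^ J := by exact_mod_cast hpow2
  omega

end Pool.Agent.N223.BP
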