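import Pool.Agent.N941.SP.Arm

/-!
Diamond words with a prescribed number of letters: the scale is as large as possible.
-/

set_option autoImplicit false

namespace Pool.Agent.N223.BP

open Finset Real
open Pool.Agent.N941.SP
open Pool.Agent.H122R3.SX (W Saw UB G c ub ubx g fs mem_fs gw one_le_gw ubx_sq_le g_pow gw_mul
  pos_le_length g_mul one_le_g)
open Pool.Agent.TH303.SX2 (Bd)

/-- choice of the scale -/
theorem sel2 (p : ℕ → ℕ) (n : ℕ) (hn : 16 ≤ n) (hp : ∀ i, 2 ^ i ≤ n → 2 ^ i ≤ p i) :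
    ∃ j i, i ≤ j ∧ 4 * (4 + 4 * ∑ i ∈ range j, p i) ≤ n ∧ 16 * 2 ^ j ≤ n ∧
      n < 16 + 16 * ((j + 1) * p i) ∧
      ∀ J, 4 * (4 + 4 * ∑ i ∈ range J, p i) ≤ n → J ≤ j := by
  classical
  have c1 : ∀ J, (∀ J' ≤ J, 4 * (4 + 4 * ∑ i ∈ range J', p i) ≤ n) →
      4 * 2 ^ J ≤ 4 + 4 * ∑ i ∈ range J, p i := by
    intro J
    induction J with
    | zero => intro _; simp
    | succ J ih =>
      intro h
      have h1 := ih (fun J' hJ' => h J' (by omega))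
      have h2 := h J (by omega)
      have h3 := hp J (by omega)
      rw [sum_range_succ, pow_succ]
      omega
  have hex : ∃ J, n < 4 * (4 + 4 * ∑ i ∈ range J, p i) := by
    by_contra hc
    push Not at hc
    have h1 := c1 n (fun J' _ => hc J')
    have h2 := hc n
    have h3 := Nat.lt_two_pow_self (n := n)
    omega
  obtain ⟨J, hJd⟩ : ∃ J, J = Nat.find hex := ⟨_, rfl⟩
  have hJ := Nat.find_spec hex
  rw [← hJd] at hJ
  have hmin : ∀ J' < J, 4 * (4 + 4 * ∑ i ∈ range J', p i) ≤ n := by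
    intro J' hJ'
    by_contra hc
    rw [hJd] at hJ'
    exact Nat.find_min hex hJ' (not_le.1 hc)
  have hJ0 : J ≠ 0 := by
    rintro rfl
    simp at hJ
    omega
  obtain ⟨j, rfl⟩ : ∃ j, J = j + 1 := ⟨J - 1, by omega⟩
  obtain ⟨i, hi, hmax⟩ := exists_max_image (range (j + 1)) p ⟨0, by simp⟩
  refine ⟨j, i, ?_, hmin j (by omega), ?_, ?_, ?_⟩
  · rw [mem_range] at hi; omega
  · have h1 := c1 j (fun J' hJ' => hmin J' (by omega))
    have h2 := hmin j (by omega)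
    omega
  · have h1 : ∑ i' ∈ range (j + 1), p i' ≤ (range (j + 1)).card • p i :=
      sum_le_card_nsmul (range (j + 1)) p (p i) hmax
    rw [card_range, smul_eq_mul] at h1
    omega
  · intro J' hJ'
    by_contra hc
    have h1 : ∑ i ∈ range (j + 1), p i ≤ ∑ i ∈ range J', p i :=
      sum_le_sum_of_subset (range_subset_range.2 (by omega))
    omega

/-- **Diamond words with a prescribed number of letters.** -/
theorem diam2 {μ K Kb : ℝ} (h : Bd μ K) (hKb : 0 ≤ Kb)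
    (hb : ∀ n : ℕ, 2 ≤ n → (c n : ℝ) * exp (-(Kb * log n ^ 2)) ≤ bw n) {n : ℕ} (hn : 416 ≤ n) :
    ∃ Y : ℤ, 1 ≤ Y ∧ (∀ J : ℕ, 4 * (4 + 4 * ∑ i ∈ range J, pl μ (thr K Kb (log n)) i) ≤ n →
      (2 : ℤ) ^ J ≤ Y) ∧ μ ^ n * exp (-((12 * (4 * Pool.Agent.TH303.SX2.K2 K + 2 * K + Kb + 22) +
      45 * (Kb + 6) + 10 * log μ) * log n ^ 3)) ≤ dm Y n := by
  have hμ0 : 0 < μ := by linarith [h.one]
  have hlμ : 0 ≤ log μ := log_nonneg h.one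
  have hK2 := Pool.Agent.TH303.SX2.K2_nonneg h.Kn
  have hKn := h.Kn
  obtain ⟨l, hl⟩ : ∃ l, l = log (n : ℝ) := ⟨_, rfl⟩
  obtain ⟨θ, hθd⟩ : ∃ θ, θ = thr K Kb (log n) := ⟨_, rfl⟩
  have hθ : 0 < θ := by rw [hθd]; exact thr_pos _ _ _
  obtain ⟨p, hp⟩ : ∃ p, p = pl μ θ := ⟨_, rfl⟩
  have hgood : ∀ i, 2 ^ i ≤ n → (good μ θ i).Nonempty := by
    intro i hi
    rw [hθd]
    exact good_nonempty h hKb (by omega) hi
  have hpge : ∀ i, 2 ^ i ≤ n → 2 ^ i ≤ p i := by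
    intro i hi
    rw [hp]
    exact good_ge hμ0 hθ (Nat.sInf_mem (hgood i hi))
  obtain ⟨j, i, hij, hN4, h16, hbig, hmaxJ⟩ := sel2 p n (by omega) hpge
  obtain ⟨P, hP⟩ : ∃ P, P = p i := ⟨_, rfl⟩
  rw [← hP] at hbig
  obtain ⟨N, hN⟩ : ∃ N, N = 4 + 4 * ∑ i ∈ range j, p i := ⟨_, rfl⟩
  rw [← hN] at hN4
  have hNl : N = Nl μ θ j := by rw [hN, hp]; rfl
  have hi2 : 2 ^ i ≤ n := by
    have : 2 ^ i ≤ 2 ^ j := Nat.pow_le_pow_right (by norm_num) hij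
    omega
  -- the length is large
  have hP6 : 6 ≤ P := by
    by_contra hc
    have hP5 : P ≤ 5 := by omega
    have h1 : (j + 1) * P ≤ (j + 1) * 5 := Nat.mul_le_mul_left _ hP5
    rcases Nat.lt_or_ge j 5 with hj | hj
    · omega
    · have := five_lt hj
      omega
  -- parity
  obtain ⟨e, M, he1, he2, hM⟩ : ∃ e M, 1 ≤ e ∧ e ≤ 2 ∧ n = 2 * N + e + 2 * M := by
    rcases Nat.even_or_odd' (n - 2 * N - 1) with ⟨M, hM | hM⟩
    · exact ⟨1, M, le_rfl, by norm_num, by omega⟩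
    · exact ⟨2, M, by norm_num, le_rfl, by omega⟩
  -- number of pairs
  obtain ⟨k, hk⟩ : ∃ k, k = M / (P - 2) + 1 := ⟨_, rfl⟩
  have hk0 : 0 < k := by rw [hk]; exact Nat.succ_pos _
  have hkM : M < k * (P - 2) := by
    rw [hk]
    have := Nat.lt_div_mul_add (a := M) (b := P - 2) (by omega)
    rw [add_mul, one_mul]
    exact this
  have hk15 : k ≤ 15 * (j + 1) := by
    have h1 : M / (P - 2) < 12 * (j + 1) + 3 := by
      rw [Nat.div_lt_iff_lt_mul (by omega)]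
      have h2 : M < 8 + 8 * ((j + 1) * P) := by omega
      obtain ⟨Q, rfl⟩ : ∃ Q, P = Q + 2 := ⟨P - 2, by omega⟩
      rw [Nat.add_sub_cancel]
      have h3 : 2 * (Q + 2) ≤ 3 * Q := by omega
      have h4 : (j + 1) * (2 * (Q + 2)) ≤ (j + 1) * (3 * Q) := Nat.mul_le_mul_left _ h3
      nlinarith
    omega
  obtain ⟨n1, hn1⟩ : ∃ n1, n1 = M / k := ⟨_, rfl⟩
  obtain ⟨r, hr⟩ : ∃ r, r = M % k := ⟨_, rfl⟩
  have hdm := Nat.div_add_mod M k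
  have hmod := Nat.mod_lt M hk0
  rw [← hn1, ← hr] at hdm
  rw [← hr] at hmod
  have hn1P : n1 + 1 < P := by
    have : M / k < P - 2 := by
      rw [Nat.div_lt_iff_lt_mul hk0]
      rw [mul_comm]; exact hkM
    omega
  have hn12 : 2 ≤ n1 := by
    rw [hn1, Nat.le_div_iff_mul_le hk0, hk]
    have h1 : M / (P - 2) * (P - 2) ≤ M := Nat.div_mul_le_self _ _
    have h2 : M / (P - 2) * 4 ≤ M / (P - 2) * (P - 2) := Nat.mul_le_mul_left _ (by omega)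
    omega
  have hMn : M ≤ n := by omega
  have hn1n : n1 + 1 ≤ n := by
    have : n1 ≤ M := by rw [hn1]; exact Nat.div_le_self _ _
    omega
  -- small weights below `P`
  have hsm : ∀ m < P, ∀ x : ℤ, |x| ≤ ((2 ^ i : ℕ) : ℤ) →
      (ubx m x (2 ^ i) : ℝ) < thr K Kb (log n) * μ ^ m := by
    intro m hm x hx
    by_contra hc
    rw [hP, hp] at hm
    apply Nat.notMem_of_lt_sInf hm
    refine ⟨x, hx, ?_⟩
    rw [hθd]
    exact not_lt.1 hc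
  obtain ⟨H, x, hx, hH⟩ := pop h hKb hb (n := n) (S := 2 ^ i) (n1 := n1) (by omega)
    Nat.one_le_two_pow hi2 hn12 (by omega) (fun m hm x hx => hsm m (by omega) x hx)
  obtain ⟨H', x', hx', hH'⟩ := pop h hKb hb (n := n) (S := 2 ^ i) (n1 := n1 + 1) (by omega)
    Nat.one_le_two_pow hi2 (by omega) hn1n (fun m hm x hx => hsm m (by omega) x hx)
  obtain ⟨Ht, hHt⟩ := middle hx hx' n1 (n1 + 1) (k - r) r
  have elen : (k - r) * n1 + r * (n1 + 1) = M := by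
    obtain ⟨s, rfl⟩ : ∃ s, k = s + r := ⟨k - r, by omega⟩
    rw [Nat.add_sub_cancel]
    nlinarith
  rw [elen] at hHt
  -- adding a letter
  have hT0 : (0 : ℤ) ≤ 2 * ((2 ^ i : ℕ) : ℤ) := by positivity
  have hadd : g Ht 0 (2 * ((2 ^ i : ℕ) : ℤ)) (2 * M) ≤
      g (Ht + ((e - 1 : ℕ) : ℤ)) 0 (2 * ((2 ^ i : ℕ) : ℤ)) (2 * M + (e - 1)) := by
    have h1 := one_le_g (e - 1) hT0
    have h2 := g_mul Ht 0 (2 * ((2 ^ i : ℕ) : ℤ)) ((e - 1 : ℕ) : ℤ) 0 (2 * ((2 ^ i : ℕ) : ℤ))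
      (2 * M) (e - 1)
    simp only [abs_zero, zero_add, max_self, add_zero] at h2
    exact (Nat.le_mul_of_pos_right _ h1).trans h2
  -- gluing
  have hT : ((2 * ((2 ^ i : ℕ) : ℤ) : ℤ) : ℝ) ≤ 1 / 2 * (((4 * 2 ^ j : ℕ) : ℤ) : ℝ) := by
    push_cast
    have : (2 : ℝ) ^ i ≤ 2 ^ j := pow_le_pow_right₀ (by norm_num) hij
    linarith
  have hH1 : (1 : ℤ) ≤ ((4 * 2 ^ j : ℕ) : ℤ) := by
    have : 1 ≤ 2 ^ j := Nat.one_le_two_pow
    exact_mod_cast (by omega : 1 ≤ 4 * 2 ^ j)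
  have hglue := dm_ge (η := 1 / 2) (by norm_num) le_rfl hH1 hT (H' := Ht + ((e - 1 : ℕ) : ℤ)) N
    (2 * M + (e - 1)) N
  have elen2 : N + (2 * M + (e - 1)) + 1 + N = n := by omega
  rw [elen2] at hglue
  obtain ⟨A, hA⟩ : ∃ A, A = exp (-((Kb + 6) * l ^ 2)) := ⟨_, rfl⟩
  rw [← hl, ← hA] at hH hH'
  have hA0 : 0 < A := by rw [hA]; exact exp_pos _
  have hmid : A ^ (2 * k) * μ ^ (2 * M) ≤ (g Ht 0 (2 * ((2 ^ i : ℕ) : ℤ)) (2 * M) : ℝ) := by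
    have h1 : ((g H x ((2 ^ i : ℕ) : ℤ) n1 : ℝ) ^ 2) ^ (k - r) *
        ((g H' x' ((2 ^ i : ℕ) : ℤ) (n1 + 1) : ℝ) ^ 2) ^ r ≤
        (g Ht 0 (2 * ((2 ^ i : ℕ) : ℤ)) (2 * M) : ℝ) := by exact_mod_cast hHt
    refine le_trans ?_ h1
    calc A ^ (2 * k) * μ ^ (2 * M)
        = ((μ ^ n1 * A) ^ 2) ^ (k - r) * ((μ ^ (n1 + 1) * A) ^ 2) ^ r := by
          rw [← elen]
          obtain ⟨s, rfl⟩ : ∃ s, k = s + r := ⟨k - r, by omega⟩
          rw [Nat.add_sub_cancel]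
          ring
      _ ≤ _ := by gcongr
  have harm := arms h.one hθ j (fun i' hi' => hgood i' (by
    have : 2 ^ i' ≤ 2 ^ j := Nat.pow_le_pow_right (by norm_num) hi'.le
    omega))
  rw [← hNl] at harm
  have hdmge : (gw (1 / 2) ((4 * 2 ^ j : ℕ) : ℤ) N : ℝ) *
      (g Ht 0 (2 * ((2 ^ i : ℕ) : ℤ)) (2 * M) : ℝ) * (gw (1 / 2) ((4 * 2 ^ j : ℕ) : ℤ) N : ℝ) ≤
      (dm (2 * ((4 * 2 ^ j : ℕ) : ℤ) + (Ht + ((e - 1 : ℕ) : ℤ)) + 1) n : ℝ) := by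
    have := (Nat.mul_le_mul_right (gw (1 / 2) ((4 * 2 ^ j : ℕ) : ℤ) N)
      (Nat.mul_le_mul_left (gw (1 / 2) ((4 * 2 ^ j : ℕ) : ℤ) N) hadd)).trans hglue
    exact_mod_cast this
  have hgpos : 0 < g Ht 0 (2 * ((2 ^ i : ℕ) : ℤ)) (2 * M) := by
    have h1 : (0 : ℝ) < (g Ht 0 (2 * ((2 ^ i : ℕ) : ℤ)) (2 * M) : ℝ) :=
      lt_of_lt_of_le (by positivity) hmid
    exact_mod_cast h1
  have hHt0 := g_nonneg_height hgpos
  refine ⟨2 * ((4 * 2 ^ j : ℕ) : ℤ) + (Ht + ((e - 1 : ℕ) : ℤ)) + 1, by omega, ?_, ?_⟩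
  · intro J hJ
    rw [← hθd, ← hp] at hJ
    have h1 := hmaxJ J hJ
    have h2 : (2 : ℤ) ^ J ≤ 2 ^ j := pow_le_pow_right₀ (by norm_num) h1
    push_cast
    have h3 : (0 : ℤ) < 2 ^ j := by positivity
    omega
  refine le_trans ?_ hdmge
  -- numerics
  have hnr : (416 : ℝ) ≤ n := by exact_mod_cast hn
  have hlog2 : 0.6931471803 < log 2 := log_two_gt_d9
  have hl1 : 1 ≤ l := by
    rw [hl, ← log_exp 1]
    apply log_le_log (exp_pos _)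
    have := exp_one_lt_d9
    linarith
  have hjl : ((j : ℝ) + 1) * log 2 ≤ l := by
    have h1 : (2 : ℝ) ^ (j + 1) ≤ n := by
      have : 2 ^ (j + 1) ≤ n := by rw [pow_succ]; omega
      exact_mod_cast this
    have h2 := log_le_log (by positivity) h1
    rw [log_pow, ← hl] at h2
    exact_mod_cast h2
  have hj0 : (0 : ℝ) ≤ j := Nat.cast_nonneg j
  have hj15 : (j : ℝ) + 1 ≤ 3 / 2 * l := by nlinarith
  have hkr : (k : ℝ) ≤ 15 * (j + 1) := by exact_mod_cast hk15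
  obtain ⟨κ, hκ⟩ : ∃ κ, κ = 4 * Pool.Agent.TH303.SX2.K2 K + 2 * K + Kb + 22 := ⟨_, rfl⟩
  have hκ0 : 0 ≤ κ := by rw [hκ]; positivity
  rw [← hκ, ← hl]
  have hl2 : 0 ≤ l ^ 2 := sq_nonneg l
  have c1 : exp (-(12 * κ * l ^ 3)) ≤ θ ^ (8 * j) := by
    rw [hθd, thr, ← hκ, ← hl, ← exp_nat_mul]
    apply exp_le_exp.2
    push_cast
    have h1 : 8 * (j : ℝ) ≤ 12 * l := by linarith
    have h2 : 8 * (j : ℝ) * (κ * l ^ 2) ≤ 12 * l * (κ * l ^ 2) := by gcongr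
    nlinarith
  have c2 : exp (-(45 * (Kb + 6) * l ^ 3)) ≤ A ^ (2 * k) := by
    rw [hA, ← exp_nat_mul]
    apply exp_le_exp.2
    push_cast
    have h1 : 2 * (k : ℝ) ≤ 45 * l := by linarith
    have h2 : 2 * (k : ℝ) * ((Kb + 6) * l ^ 2) ≤ 45 * l * ((Kb + 6) * l ^ 2) := by gcongr
    nlinarith
  have c3 : exp (-(10 * log μ * l ^ 3)) * μ ^ 10 ≤ 1 := by
    have h1 : μ ^ 10 = exp (10 * log μ) := by
      rw [show (10 : ℝ) * log μ = ((10 : ℕ) : ℝ) * log μ by norm_num, exp_nat_mul, exp_log hμ0]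
    rw [h1, ← exp_add]
    rw [← exp_zero]
    apply exp_le_exp.2
    have h2 : 1 ≤ l ^ 3 := one_le_pow₀ hl1
    nlinarith
  have harm' : θ ^ (4 * j) * μ ^ N / μ ^ 4 ≤ (gw (1 / 2) ((4 * 2 ^ j : ℕ) : ℤ) N : ℝ) := by
    rw [div_le_iff₀ (pow_pos hμ0 4)]
    linarith
  have hfin : μ ^ n * exp (-((12 * κ + 45 * (Kb + 6) + 10 * log μ) * l ^ 3)) ≤
      (θ ^ (4 * j) * μ ^ N / μ ^ 4) * (A ^ (2 * k) * μ ^ (2 * M)) *
        (θ ^ (4 * j) * μ ^ N / μ ^ 4) := by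
    have h1 : (θ ^ (4 * j) * μ ^ N / μ ^ 4) * (A ^ (2 * k) * μ ^ (2 * M)) *
        (θ ^ (4 * j) * μ ^ N / μ ^ 4) = (θ ^ (8 * j) * A ^ (2 * k) * μ ^ (2 * N + 2 * M)) / μ ^ 8 := by
      field_simp
      ring
    rw [h1, le_div_iff₀ (pow_pos hμ0 8)]
    have h2 : μ ^ n = μ ^ (2 * N + 2 * M) * μ ^ e := by
      rw [← pow_add]
      congr 1
      omega
    have h3 : μ ^ e ≤ μ ^ 2 := pow_le_pow_right₀ h.one he2
    have h4 : exp (-((12 * κ + 45 * (Kb + 6) + 10 * log μ) * l ^ 3)) =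
        exp (-(12 * κ * l ^ 3)) * exp (-(45 * (Kb + 6) * l ^ 3)) * exp (-(10 * log μ * l ^ 3)) := by
      rw [← exp_add, ← exp_add]
      congr 1
      ring
    rw [h2, h4]
    have h5 : 0 < μ ^ (2 * N + 2 * M) := pow_pos hμ0 _
    calc μ ^ (2 * N + 2 * M) * μ ^ e * (exp (-(12 * κ * l ^ 3)) * exp (-(45 * (Kb + 6) * l ^ 3)) *
          exp (-(10 * log μ * l ^ 3))) * μ ^ 8
        ≤ μ ^ (2 * N + 2 * M) * μ ^ 2 * (θ ^ (8 * j) * A ^ (2 * k) *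
          exp (-(10 * log μ * l ^ 3))) * μ ^ 8 := by gcongr
      _ = (θ ^ (8 * j) * A ^ (2 * k) * μ ^ (2 * N + 2 * M)) *
          (exp (-(10 * log μ * l ^ 3)) * μ ^ 10) := by ring
      _ ≤ (θ ^ (8 * j) * A ^ (2 * k) * μ ^ (2 * N + 2 * M)) * 1 := by gcongr
      _ = _ := mul_one _
  refine hfin.trans ?_
  have hpos : 0 ≤ θ ^ (4 * j) * μ ^ N / μ ^ 4 := by positivity
  gcongr

end Pool.Agent.N223.BP
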