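import Pool.Agent.N223.BP.Cnt
import Pool.Agent.Y981.L2.PolyE

/-!
Polygons which follow a closed lattice path, at all scales; the tail of the width at all scales.
-/

set_option autoImplicit false

namespace Pool.Agent.N223.BP

open Finset Real
open Pool.Agent.N223.PS

/-- the probability of the event `E` for the uniform (rooted and oriented) self-avoiding polygon
of perimeter `2 n` -/
noncomputable def prob (n : ℕ) (E : (ZMod (2 * n) → ℤ × ℤ) → Prop) : ℝ :=
  ({f | IsLoop (2 * n) f ∧ E f}.ncard : ℝ) / ({f | IsLoop (2 * n) f}.ncard : ℝ)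

/-- the mean width -/
noncomputable def mean (n : ℕ) : ℝ :=
  (∑ᶠ f ∈ {f : ZMod (2 * n) → ℤ × ℤ | IsLoop (2 * n) f}, (width (2 * n) f : ℝ)) /
    ({f : ZMod (2 * n) → ℤ × ℤ | IsLoop (2 * n) f}.ncard : ℝ)

theorem pw_eq (n : ℕ) (r : ℝ) : Y981.L2.pw n r = prob n (fun f => r ≤ width (2 * n) f) := rfl

theorem step_le {n : ℕ} {f : ZMod n → ℤ × ℤ} (hf : IsLoop n f) (a : ZMod n) (d : ℕ) :
    |(f (a + d)).1 - (f a).1| ≤ d := by
  induction d with
  | zero => simp
  | succ d ih =>
    have h1 := hf.2.2 (a + d)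
    have e : a + ((d + 1 : ℕ) : ZMod n) = a + d + 1 := by push_cast; ring
    rw [e]
    have h2 := abs_nonneg ((f (a + d + 1)).2 - (f (a + d)).2)
    have h3 : |(f (a + d + 1)).1 - (f (a + d)).1| ≤ 1 := by omega
    rw [abs_le] at h3 ih ⊢
    push_cast
    constructor <;> omega

theorem width_le_half {n : ℕ} (hn : 1 ≤ n) {f : ZMod (2 * n) → ℤ × ℤ} (hf : IsLoop (2 * n) f) :
    width (2 * n) f ≤ n := by
  have : NeZero (2 * n) := ⟨by omega⟩
  obtain ⟨i, j, hij⟩ := exists_ext (by omega) f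
  rw [hij]
  have h1 := step_le hf j (i - j).val
  have h2 := step_le hf i (2 * n - (i - j).val)
  have hlt := ZMod.val_lt (i - j)
  have e1 : j + (((i - j).val : ℕ) : ZMod (2 * n)) = i := by
    rw [ZMod.natCast_zmod_val]; ring
  have e2 : i + ((2 * n - (i - j).val : ℕ) : ZMod (2 * n)) = j := by
    rw [Nat.cast_sub hlt.le, ZMod.natCast_zmod_val, ZMod.natCast_self]; ring
  rw [e1] at h1
  rw [e2] at h2
  rw [abs_le] at h1 h2
  omega

theorem nl_pos {n : ℕ} (hn : 2 ≤ n) : (0 : ℝ) < nl n := by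
  obtain ⟨K, -, h⟩ := nl_bounds
  have hmu := H981.mu_pos
  exact lt_of_lt_of_le (by positivity) (h n hn).1

theorem prob_mono {n : ℕ} (hn : 1 ≤ n) {E F : (ZMod (2 * n) → ℤ × ℤ) → Prop}
    (h : ∀ f, IsLoop (2 * n) f → E f → F f) : prob n E ≤ prob n F := by
  unfold prob
  apply div_le_div_of_nonneg_right _ (Nat.cast_nonneg _)
  have : {f | IsLoop (2 * n) f ∧ E f}.ncard ≤ {f | IsLoop (2 * n) f ∧ F f}.ncard :=
    Set.ncard_le_ncard (fun f hf => ⟨hf.1, h f hf.1 hf.2⟩)
      ((loops_finite (by omega : 1 ≤ 2 * n)).1.subset fun f hf => hf.1)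
  exact_mod_cast this

theorem prob_zero {n : ℕ} {E : (ZMod (2 * n) → ℤ × ℤ) → Prop}
    (h : ∀ f, IsLoop (2 * n) f → ¬ E f) : prob n E = 0 := by
  unfold prob
  have : {f | IsLoop (2 * n) f ∧ E f} = ∅ := by
    rw [Set.eq_empty_iff_forall_notMem]
    rintro f ⟨h1, h2⟩
    exact h f h1 h2
  rw [this, Set.ncard_empty, Nat.cast_zero, zero_div]

/-- **blobs** -/
theorem blob_tail (κ : ℝ) (hκ : 0 ≤ κ) : ∃ (K : ℝ) (Y : ℕ → ℤ), 0 ≤ K ∧
    ∀ m ≥ 424, 1 ≤ Y m ∧ Y m ≤ m ∧ mean m ≤ 129 * Y m ∧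
    (∀ k n : ℕ, 1 ≤ k → 2 ≤ n → n ≤ k * m →
      prob n (fun f => (256 * k * Y m : ℝ) ≤ width (2 * n) f) ≤ exp (-(κ * k * log m ^ 2))) ∧
    ∀ (L : ℕ) (P : ℕ → ℤ × ℤ), Cl L P → P 0 = 0 → ∀ n, 2 * n / L = m →
      ∃ τ : ℕ → ℕ, StrictMono τ ∧ τ 0 = 0 ∧ τ L = 2 * n ∧
        (∀ i, τ (i + 1) = τ i + m ∨ τ (i + 1) = τ i + m + 2) ∧
        exp (-(K * L * log m ^ 3)) ≤ prob n (fun f => Fol L P (Y m) τ (top (2 * n) f)) := by
  obtain ⟨K1, hK1, hpw⟩ := Y981.L2.pw_ldp
  obtain ⟨K, Y, hK, h1, h2⟩ := blob (κ + 7 * K1 + 2) (by positivity)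
  refine ⟨K, Y, hK, fun m hm => ?_⟩
  obtain ⟨hY1, hYm, hsc⟩ := h1 m hm
  have hmr : (424 : ℝ) ≤ m := by exact_mod_cast hm
  have hl1 : 1 ≤ log (m : ℝ) := by
    rw [← log_exp 1]
    apply log_le_log (exp_pos _)
    have := exp_one_lt_d9
    linarith
  have hl2 : 1 ≤ log (m : ℝ) ^ 2 := one_le_pow₀ hl1
  have hnl := nl_pos (n := m) (by omega)
  obtain ⟨r, hr⟩ : ∃ r : ℕ, (r : ℤ) = 128 * Y m + 1 :=
    ⟨(128 * Y m + 1).toNat, Int.toNat_of_nonneg (by omega)⟩
  have hYr : (1 : ℝ) ≤ Y m := by exact_mod_cast hY1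
  have hrr : (r : ℝ) = 128 * Y m + 1 := by exact_mod_cast hr
  have hpr : prob m (fun f => (r : ℝ) ≤ width (2 * m) f) <
      exp (-((κ + 7 * K1 + 2) * log m ^ 2)) := by
    unfold prob
    change _ / (nl m : ℝ) < _
    rw [div_lt_iff₀ hnl]
    by_contra hc
    push Not at hc
    have := hsc r (by simpa using hc)
    omega
  refine ⟨hY1, hYm, ?_, ?_, ?_⟩
  · -- the mean
    have hfin := (loops_finite (by omega : 1 ≤ 2 * m)).1
    unfold mean
    change _ / (nl m : ℝ) ≤ _
    rw [div_le_iff₀ hnl, finsum_mem_eq_finite_toFinset_sum _ hfin]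
    have hcard : (nl m : ℝ) = hfin.toFinset.card := by
      unfold nl
      rw [Set.ncard_eq_toFinset_card _ hfin]
    have key : ∀ f ∈ hfin.toFinset, (width (2 * m) f : ℝ) ≤
        128 * Y m + (if r ≤ width (2 * m) f then (m : ℝ) else 0) := by
      intro f hf
      rw [Set.Finite.mem_toFinset] at hf
      split_ifs with hcase
      · have h3 : (width (2 * m) f : ℝ) ≤ m := by exact_mod_cast width_le_half (by omega) hf
        linarith
      · have h3 : width (2 * m) f + 1 ≤ r := by omega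
        have h4 : (width (2 * m) f : ℝ) + 1 ≤ r := by exact_mod_cast h3
        linarith
    refine (sum_le_sum key).trans ?_
    rw [sum_add_distrib, sum_const, nsmul_eq_mul, ← sum_filter, sum_const, nsmul_eq_mul, ← hcard]
    have e1 : (((hfin.toFinset.filter fun f => r ≤ width (2 * m) f).card : ℕ) : ℝ) =
        prob m (fun f => (r : ℝ) ≤ width (2 * m) f) * nl m := by
      unfold prob
      change _ = _ / (nl m : ℝ) * nl m
      rw [div_mul_cancel₀ _ hnl.ne']
      congr 1
      rw [← Set.ncard_coe_finset]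
      congr 1
      ext f
      simp
    rw [e1]
    have h3 : prob m (fun f => (r : ℝ) ≤ width (2 * m) f) * m ≤ 1 := by
      have h4 : exp (-((κ + 7 * K1 + 2) * log m ^ 2)) * m ≤ 1 := by
        have h5 : (m : ℝ) = exp (log m) := (exp_log (by linarith)).symm
        calc exp (-((κ + 7 * K1 + 2) * log m ^ 2)) * m
            = exp (-((κ + 7 * K1 + 2) * log m ^ 2) + log m) := by
              rw [exp_add, exp_log (by linarith)]
          _ ≤ exp 0 := by
              apply exp_le_exp.2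
              nlinarith [mul_nonneg hκ (sq_nonneg (log (m : ℝ))),
                mul_nonneg hK1 (sq_nonneg (log (m : ℝ)))]
          _ = 1 := exp_zero
      exact (mul_le_mul_of_nonneg_right hpr.le (by linarith)).trans h4
    nlinarith
  · -- the tail
    intro k n hk hn hnk
    have hkr : (1 : ℝ) ≤ k := by exact_mod_cast hk
    have hkY : (k : ℝ) * r < 256 * k * Y m := by
      rw [hrr]
      nlinarith
    by_cases hw : k * r < n
    swap
    · -- impossible
      rw [prob_zero]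
      · exact (exp_pos _).le
      · intro f hf hc
        have h3 := width_le_half (by omega) hf
        have h4 : (width (2 * n) f : ℝ) ≤ k * r := by exact_mod_cast h3.trans (not_lt.1 hw)
        linarith
    have hr1 : 1 ≤ r := by omega
    have hrm : r < m := by
      by_contra hc
      have : k * m ≤ k * r := Nat.mul_le_mul_left _ (not_lt.1 hc)
      omega
    obtain ⟨g1, -⟩ := hpw m (by omega) r hr1 hrm
    rw [pw_eq] at g1
    have g2 := exp_lt_exp.1 (lt_of_le_of_lt g1 hpr)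
    have hkr1 : 1 ≤ k * r := Nat.one_le_iff_ne_zero.2 (by positivity)
    obtain ⟨-, g3⟩ := hpw n hn (k * r) hkr1 hw
    rw [pw_eq] at g3
    have hn0 : (0 : ℝ) < n := by exact_mod_cast (by omega : 0 < n)
    have hm0 : (0 : ℝ) < m := by linarith
    have hk0 : (0 : ℝ) < k := by linarith
    have hnk' : (n : ℝ) ≤ k * m := by exact_mod_cast hnk
    have hsmul := Y981.L2.R_smul (v := ((k * r : ℕ) : ℝ) / n) (t := n / (k * m))
      (by positivity) (by
        rw [div_le_one hn0]
        exact_mod_cast hw.le) (by positivity) (by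
        rw [div_le_one (by positivity)]
        exact hnk')
    have e1 : (n : ℝ) / (k * m) * (((k * r : ℕ) : ℝ) / n) = (r : ℝ) / m := by
      push_cast
      field_simp
    rw [e1, div_mul_eq_mul_div, le_div_iff₀ (by positivity)] at hsmul
    have hlogn : log (n : ℝ) ^ 2 ≤ 6 * (k * log m ^ 2) := by
      have a1 : log (n : ℝ) ≤ log k + log m := by
        rw [← log_mul hk0.ne' hm0.ne']
        exact log_le_log hn0 hnk'
      have a2 := Pool.Agent.TH303.SX2.log2_le (y := (k : ℝ)) hkr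
      have a3 : 0 ≤ log (n : ℝ) := log_natCast_nonneg n
      have a4 : log (n : ℝ) ^ 2 ≤ (log k + log m) ^ 2 := pow_le_pow_left₀ a3 a1 2
      have a5 : (log (k : ℝ) + log m) ^ 2 ≤ 2 * log k ^ 2 + 2 * log m ^ 2 := by
        nlinarith [sq_nonneg (log (k : ℝ) - log m)]
      have a6 : (k : ℝ) ≤ k * log m ^ 2 := by nlinarith
      have a7 : log (m : ℝ) ^ 2 ≤ k * log m ^ 2 := by nlinarith
      linarith
    calc prob n (fun f => (256 * k * Y m : ℝ) ≤ width (2 * n) f)
        ≤ prob n (fun f => ((k * r : ℕ) : ℝ) ≤ width (2 * n) f) := by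
          apply prob_mono (by omega)
          intro f _ hf
          push_cast
          linarith
      _ ≤ _ := g3
      _ ≤ _ := by
        apply exp_le_exp.2
        have b1 : k * (2 * (m * Y981.L2.R ((r : ℝ) / m))) ≤
            2 * (n * Y981.L2.R (((k * r : ℕ) : ℝ) / n)) := by nlinarith
        have b2 : k * ((κ + 7 * K1 + 2) * log m ^ 2) ≤
            k * (2 * (m * Y981.L2.R ((r : ℝ) / m)) + K1 * log m ^ 2) := by
          apply mul_le_mul_of_nonneg_left _ hk0.le
          linarith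
        have b3 := mul_le_mul_of_nonneg_left hlogn hK1
        have b4 : 0 ≤ k * log (m : ℝ) ^ 2 := by positivity
        nlinarith
  · -- the pictures
    intro L P hP hP0 n hn
    obtain ⟨τ, g1, g2, g3, g4, g5⟩ := h2 m hm L P hP hP0 n hn
    refine ⟨τ, g1, g2, g3, g4, ?_⟩
    have hLn : 2 ≤ n := by
      have h4 := hP.four
      have : 424 ≤ 2 * n := by
        have := Nat.div_le_self (2 * n) L
        omega
      omega
    unfold prob
    change _ ≤ _ / (nl n : ℝ)
    rw [le_div_iff₀ (nl_pos hLn)]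
    exact g5

end Pool.Agent.N223.BP
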